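import Pool.Agent.H42.M1.Word

set_option autoImplicit false

open Equiv

namespace Pool.M1

variable {V : Type} {G : SimpleGraph V} {ρ : Rot G} [Finite V]

/-- a connected set in the complement is absorbed into the hub below one of its feet -/
theorem Hub.absorb (𝓗 : Hub ρ) (X : Set V) (x : G.Dart) (hX : (G.induce X).Connected)
    (hd : Disjoint X 𝓗.H) (hx : x.fst ∈ 𝓗.H) (hx' : x.snd ∈ X) :
    ∃ 𝓗' : Hub ρ, Hub.Ext 𝓗 𝓗' ∧ 𝓗'.H = 𝓗.H ∪ X ∧ 𝓗'.par x.snd = x.symm ∧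
      (∀ v ∈ X, 𝓗.wd x <+: 𝓗'.w v) ∧ (∀ v ∈ X, v ≠ x.snd → (𝓗'.par v).snd ∈ X) := by
  have hxH : x.snd ∉ 𝓗.H := fun h => Set.disjoint_left.1 hd hx' h
  have key : ∀ n : ℕ, ∀ Y : Set V, Y ⊆ X → x.snd ∈ Y → (X \ Y).ncard = n → ∀ 𝓗₁ : Hub ρ,
      Hub.Ext 𝓗 𝓗₁ → 𝓗₁.H = 𝓗.H ∪ Y → 𝓗₁.par x.snd = x.symm →
      (∀ v ∈ Y, 𝓗.wd x <+: 𝓗₁.w v) → (∀ v ∈ Y, v ≠ x.snd → (𝓗₁.par v).snd ∈ Y) →
      ∃ 𝓗' : Hub ρ, Hub.Ext 𝓗 𝓗' ∧ 𝓗'.H = 𝓗.H ∪ X ∧ 𝓗'.par x.snd = x.symm ∧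
        (∀ v ∈ X, 𝓗.wd x <+: 𝓗'.w v) ∧ (∀ v ∈ X, v ≠ x.snd → (𝓗'.par v).snd ∈ X) := by
    intro n
    induction n with
    | zero =>
      intro Y hY _ hn 𝓗₁ h1 h2 h3 h4 h5
      have : X \ Y = ∅ := (Set.ncard_eq_zero (Set.toFinite _)).1 hn
      have hXY : Y = X := Set.Subset.antisymm hY (by rwa [Set.sdiff_eq_empty] at this)
      subst hXY
      exact ⟨𝓗₁, h1, h2, h3, h4, h5⟩
    | succ n ih =>
      intro Y hY hxY hn 𝓗₁ h1 h2 h3 h4 h5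
      have hne : (X \ Y).Nonempty := by
        rw [← Set.ncard_pos (Set.toFinite _)]; omega
      obtain ⟨z, hz, hzY⟩ := hne
      obtain ⟨p⟩ := hX.preconnected ⟨x.snd, hx'⟩ ⟨z, hz⟩
      obtain ⟨e, -, he1, he2⟩ := p.exists_boundary_dart {v | v.1 ∈ Y} hxY hzY
      have hadj : G.Adj e.fst.1 e.snd.1 := e.adj
      have ha1 : (⟨(e.fst.1, e.snd.1), hadj⟩ : G.Dart).fst ∈ 𝓗₁.H := by
        rw [h2]; exact Or.inr he1
      have ha2 : (⟨(e.fst.1, e.snd.1), hadj⟩ : G.Dart).snd ∉ 𝓗₁.H := by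
        rw [h2]
        rintro (h | h)
        · exact Set.disjoint_left.1 hd e.snd.2 h
        · exact he2 h
      obtain ⟨a, ha⟩ : ∃ a : G.Dart, a = ⟨(e.fst.1, e.snd.1), hadj⟩ := ⟨_, rfl⟩
      have haf : a.fst = e.fst.1 := by rw [ha]
      have has : a.snd = e.snd.1 := by rw [ha]
      rw [← ha] at ha1 ha2
      obtain ⟨𝓗₂, k1, k2, k3, k4⟩ := 𝓗₁.ext1 a ha1 ha2
      have haX : a.snd ∈ X := by rw [has]; exact e.snd.2
      have haY : a.snd ∉ Y := by rw [has]; exact he2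
      have haf' : a.fst ∈ Y := by rw [haf]; exact he1
      have hYH : ∀ v ∈ Y, v ∈ 𝓗₁.H := fun v hv => by rw [h2]; exact Or.inr hv
      refine ih (insert a.snd Y) (Set.insert_subset haX hY) (Or.inr hxY) ?_ 𝓗₂ (h1.trans k1) ?_ ?_
        ?_ ?_
      · have e1 : X \ Y = insert a.snd (X \ insert a.snd Y) := by
          ext u
          simp only [Set.mem_insert_iff, Set.mem_sdiff]
          constructor
          · rintro ⟨hu, hu'⟩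
            by_cases h : u = a.snd
            · exact Or.inl h
            · exact Or.inr ⟨hu, fun h' => h'.elim h hu'⟩
          · rintro (rfl | ⟨hu, hu'⟩)
            · exact ⟨haX, haY⟩
            · exact ⟨hu, fun h => hu' (Or.inr h)⟩
        rw [e1, Set.ncard_insert_of_notMem (fun h => h.2 (Or.inl rfl)) (Set.toFinite _)] at hn
        omega
      · rw [k2, h2, Set.union_insert]
      · rw [k1.par _ (hYH _ hxY), h3]
      · rintro v (rfl | hv)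
        · rw [k4]
          unfold Hub.wd
          exact (h4 _ haf').trans (List.prefix_append _ _)
        · rw [k1.w _ (hYH v hv)]; exact h4 v hv
      · rintro v (rfl | hv) hne
        · rw [k3]; exact Or.inr haf'
        · rw [k1.par _ (hYH v hv)]; exact Or.inr (h5 v hv hne)
  obtain ⟨𝓗₁, k1, k2, k3, k4⟩ := 𝓗.ext1 x hx hxH
  refine key _ {x.snd} (Set.singleton_subset_iff.2 hx') rfl rfl 𝓗₁ k1 ?_ k3 ?_ ?_
  · rw [k2, Set.union_singleton]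
  · rintro v rfl
    rw [k4]
  · intro v hv hne
    exact absurd hv hne

omit [Finite V] in
theorem Hub.tr_of_ext {𝓗 𝓗' : Hub ρ} (hE : Hub.Ext 𝓗 𝓗') {d : G.Dart} (hd : d.fst ∈ 𝓗.H)
    (hd' : d.snd ∈ 𝓗.H) (h : 𝓗'.Tr d) : 𝓗.Tr d := by
  obtain ⟨v, hv, hvq, h | h⟩ := h
  · have hvd : v = d.fst := by rw [h, 𝓗'.hpf v hv hvq]
    have hvH : v ∈ 𝓗.H := hvd ▸ hd
    exact ⟨v, hvH, by rw [← hE.q]; exact hvq, Or.inl (by rw [← hE.par v hvH]; exact h)⟩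
  · have hvd : v = d.snd := by
      rw [h]; exact (𝓗'.hpf v hv hvq).symm
    have hvH : v ∈ 𝓗.H := hvd ▸ hd'
    exact ⟨v, hvH, by rw [← hE.q]; exact hvq, Or.inr (by rw [← hE.par v hvH]; exact h)⟩

/-- the second foot of an absorbed set is a chord -/
theorem Hub.absorb_chord {𝓗 𝓗' : Hub ρ} {X : Set V} {x y : G.Dart} (hE : Hub.Ext 𝓗 𝓗')
    (hd : Disjoint X 𝓗.H) (hH : 𝓗'.H = 𝓗.H ∪ X) (hp : 𝓗'.par x.snd = x.symm)
    (hpX : ∀ v ∈ X, v ≠ x.snd → (𝓗'.par v).snd ∈ X) (hy : y.fst ∈ 𝓗.H) (hy' : y.snd ∈ X)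
    (hxy : y ≠ x) : ¬ 𝓗'.Tr y := by
  rintro ⟨v, hv, hvq, h | h⟩
  · have hvd : v = y.fst := by rw [h, 𝓗'.hpf v hv hvq]
    have hvH : v ∈ 𝓗.H := hvd ▸ hy
    have h1 : 𝓗'.par v = 𝓗.par v := hE.par v hvH
    have h2 : (𝓗.par v).snd ∈ 𝓗.H := 𝓗.hps v hvH (by rw [← hE.q]; exact hvq)
    rw [← h1, ← h] at h2
    exact Set.disjoint_left.1 hd hy' h2
  · have hvd : v = y.snd := by
      rw [h]; exact (𝓗'.hpf v hv hvq).symm
    by_cases hvx : v = x.snd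
    · apply hxy
      rw [h, hvx, hp, SimpleGraph.Dart.symm_symm]
    · have h1 := hpX v (hvd ▸ hy') hvx
      have h2 : (𝓗'.par v).snd = y.fst := by rw [h]; rfl
      rw [h2] at h1
      exact Set.disjoint_left.1 hd h1 hy

/-- position of the darts at an absorbed set -/
theorem Hub.absorb_lt {𝓗 𝓗' : Hub ρ} {X : Set V} {x y z : G.Dart} (hE : Hub.Ext 𝓗 𝓗')
    (hd : Disjoint X 𝓗.H) (hw : ∀ v ∈ X, 𝓗.wd x <+: 𝓗'.w v) (hx : x.fst ∈ 𝓗.H)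
    (hx' : x.snd ∈ X) (hy' : y.snd ∈ X) (hz : z.fst ∈ 𝓗.H) :
    (𝓗.wd z < 𝓗.wd x → 𝓗'.wd z < 𝓗'.wd y.symm) ∧ (𝓗.wd x < 𝓗.wd z → 𝓗'.wd y.symm < 𝓗'.wd z) := by
  have h1 : 𝓗.wd x <+: 𝓗'.wd y.symm := by
    unfold Hub.wd
    exact (hw _ hy').trans (List.prefix_append _ _)
  obtain ⟨s, hs⟩ := h1
  rw [hE.wd hz, ← hs]
  constructor
  · intro h
    exact lt_app_of_lt h _
  · intro h
    refine app_lt_of_lt' h ?_ _
    intro hp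
    have := 𝓗.pre_out hx hz (fun h => Set.disjoint_left.1 hd hx' h) hp
    rw [this] at h
    exact lt_irrefl _ h

omit [Finite V] in
theorem ncCX_of (h : NcCC V) : NcCX V := by
  intro _ G ρ 𝓗 d X x y hd hd' hdt hX hdis hx hx' hy hy' hcase
  obtain ⟨𝓗', hE, hH, hp, hw, hpX⟩ := 𝓗.absorb X x hX hdis hx hx'
  have hyx : y ≠ x := by
    rintro rfl
    rcases hcase with ⟨h1, h2, h3⟩ | ⟨h1, h2, h3⟩
    · exact lt_irrefl _ (h2.trans h3)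
    · exact lt_irrefl _ (h1.trans h2)
  have hyt := Hub.absorb_chord hE hdis hH hp hpX hy hy' hyx
  have hdt' : ¬ 𝓗'.Tr d := fun h => hdt (Hub.tr_of_ext hE hd hd' h)
  have hyt' : ¬ 𝓗'.Tr y.symm := by
    rintro ⟨v, hv, hvq, h | h⟩
    · exact hyt ⟨v, hv, hvq, Or.inr (by rw [← h, SimpleGraph.Dart.symm_symm])⟩
    · refine hyt ⟨v, hv, hvq, Or.inl ?_⟩
      rw [← SimpleGraph.Dart.symm_symm y, h, SimpleGraph.Dart.symm_symm]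
  have hyH : y.fst ∈ 𝓗'.H := hE.sub hy
  have hyH' : y.snd ∈ 𝓗'.H := by rw [hH]; exact Or.inr hy'
  have hds : d.symm.fst ∈ 𝓗.H := hd'
  rcases hcase with ⟨h1, h2, h3⟩ | ⟨h1, h2, h3⟩
  · refine h G ρ 𝓗' d y.symm (hE.sub hd) (hE.sub hd') hyH' hyH hdt' hyt' ?_ ?_ ?_
    · exact (Hub.absorb_lt hE hdis hw hx hx' hy' hd).1 h1
    · exact (Hub.absorb_lt hE hdis hw hx hx' hy' hds).2 h2
    · rw [SimpleGraph.Dart.symm_symm, hE.wd hds, hE.wd hy]; exact h3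
  · refine h G ρ 𝓗' y.symm d hyH' hyH (hE.sub hd) (hE.sub hd') hyt' hdt' ?_ ?_ ?_
    · exact (Hub.absorb_lt hE hdis hw hx hx' hy' hd).2 h1
    · rw [SimpleGraph.Dart.symm_symm, hE.wd hd, hE.wd hy]; exact h2
    · rw [SimpleGraph.Dart.symm_symm, hE.wd hds, hE.wd hy]; exact h3

omit [Finite V] in
theorem ncXX_of (h : NcCX V) : NcXX V := by
  intro _ G ρ 𝓗 X Y x₁ x₂ y₁ y₂ hX hY hdX hdY hdXY hx₁ hx₁' hx₂ hx₂' hy₁ hy₁' hy₂ hy₂' h1 h2 h3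
  obtain ⟨𝓗', hE, hH, hp, hw, hpX⟩ := 𝓗.absorb X x₁ hX hdX hx₁ hx₁'
  have hx21 : x₂ ≠ x₁ := by
    rintro rfl
    exact lt_irrefl _ (h1.trans h2)
  have ht := Hub.absorb_chord hE hdX hH hp hpX hx₂ hx₂' hx21
  have ht' : ¬ 𝓗'.Tr x₂.symm := by
    rintro ⟨v, hv, hvq, h | h⟩
    · exact ht ⟨v, hv, hvq, Or.inr (by rw [← h, SimpleGraph.Dart.symm_symm])⟩
    · refine ht ⟨v, hv, hvq, Or.inl ?_⟩
      rw [← SimpleGraph.Dart.symm_symm x₂, h, SimpleGraph.Dart.symm_symm]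
  have hx2H' : x₂.snd ∈ 𝓗'.H := by rw [hH]; exact Or.inr hx₂'
  have hdY' : Disjoint Y 𝓗'.H := by
    rw [hH, Set.disjoint_union_right]
    exact ⟨hdY, hdXY.symm⟩
  refine h G ρ 𝓗' x₂.symm Y y₁ y₂ hx2H' (hE.sub hx₂) ht' hY hdY' (hE.sub hy₁) hy₁' (hE.sub hy₂)
    hy₂' (Or.inl ⟨?_, ?_, ?_⟩)
  · exact (Hub.absorb_lt hE hdX hw hx₁ hx₁' hx₂' hy₁).2 h1
  · rw [SimpleGraph.Dart.symm_symm, hE.wd hy₁, hE.wd hx₂]; exact h2
  · rw [SimpleGraph.Dart.symm_symm, hE.wd hx₂, hE.wd hy₂]; exact h3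

end Pool.M1
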