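import Mathlib

/-!
Project M1 (MP_c9fc14): lexicographic order on lists of natural numbers, prefixes first.
-/

set_option autoImplicit false

namespace Pool.M1

theorem cons_lt' {a b : ℕ} {l m : List ℕ} : a :: l < b :: m ↔ a < b ∨ (a = b ∧ l < m) := by
  exact List.cons_lt_cons_iff

theorem nil_lt' {a : ℕ} {l : List ℕ} : ([] : List ℕ) < a :: l := List.nil_lt_cons a l

theorem app_lt_app (l s t : List ℕ) : l ++ s < l ++ t ↔ s < t := by
  induction l with
  | nil => simp
  | cons a l ih => rw [List.cons_append, List.cons_append, cons_lt', ih]; simp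

theorem lt_app (l : List ℕ) {s : List ℕ} (hs : s ≠ []) : l < l ++ s := by
  conv_lhs => rw [← List.append_nil l]
  rw [app_lt_app]
  cases s with
  | nil => exact absurd rfl hs
  | cons a s => exact nil_lt'

theorem le_app (l s : List ℕ) : l ≤ l ++ s := by
  by_cases hs : s = []
  · rw [hs, List.append_nil]
  · exact (lt_app l hs).le

theorem single_lt {i j : ℕ} : ([i] : List ℕ) < [j] ↔ i < j := by
  rw [cons_lt']; simp

/-- beyond all extensions -/
theorem app_lt_of_lt : ∀ {l m : List ℕ}, l < m → ¬ l <+: m → ∀ s t, l ++ s < m ++ t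
  | [], m, _, h, _, _ => absurd (List.nil_prefix) h
  | a :: l, [], h, _, _, _ => absurd h (by simp)
  | a :: l, b :: m, h, h', s, t => by
    rw [List.cons_append, List.cons_append, cons_lt']
    rcases cons_lt'.1 h with h1 | ⟨h1, h2⟩
    · exact Or.inl h1
    · right
      refine ⟨h1, app_lt_of_lt h2 ?_ s t⟩
      intro h3
      apply h'
      subst h1
      exact (List.prefix_cons_inj a).2 h3

theorem app_lt_of_lt' {l m : List ℕ} (h : l < m) (h' : ¬ l <+: m) (s : List ℕ) : l ++ s < m := by
  have := app_lt_of_lt h h' s []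
  rwa [List.append_nil] at this

/-- below all extensions -/
theorem lt_app_of_lt {l m : List ℕ} (h : l < m) (s : List ℕ) : l < m ++ s :=
  lt_of_lt_of_le h (le_app m s)

theorem prefix_single {l m : List ℕ} {i : ℕ} : l <+: m ++ [i] ↔ l = m ++ [i] ∨ l <+: m := by
  rw [List.prefix_concat_iff]

end Pool.M1
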