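import Pool.Agent.H96.W.Cyc
import Pool.Agent.H42.M1.Lx

/-!
Project M1 (MP_c9fc14): rotation systems of genus zero, hubs (rooted trees in the graph) and the
contour order of the darts at a hub.
-/

set_option autoImplicit false

open Equiv

namespace Pool.M1

/-- the reversal of darts -/
def rev {V : Type} (G : SimpleGraph V) : Perm G.Dart :=
  ⟨SimpleGraph.Dart.symm, SimpleGraph.Dart.symm, SimpleGraph.Dart.symm_symm,
    SimpleGraph.Dart.symm_symm⟩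

/-- rotation systems of genus zero -/
structure Rot {V : Type} (G : SimpleGraph V) where
  /-- the rotation -/
  σ : Perm G.Dart
  hfst : ∀ d, (σ d).fst = d.fst
  hcyc : ∀ d d', d.fst = d'.fst → σ.SameCycle d d'
  pln : Pool.H96.W.Def σ (rev G) = 0

/-- the first dart at a vertex: the root dart at the root, otherwise the dart after the parent dart -/
noncomputable def stt {V : Type} {G : SimpleGraph V} (ρ : Rot G) (q : V) (r0 : G.Dart)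
    (par : V → G.Dart) (v : V) : G.Dart := by
  classical
  exact if v = q then r0 else ρ.σ (par v)

/-- local index of a dart: the number of steps from the first dart (so the parent dart is last) -/
noncomputable def ixx {V : Type} {G : SimpleGraph V} (ρ : Rot G) (q : V) (r0 : G.Dart)
    (par : V → G.Dart) (d : G.Dart) : ℕ := sInf {i : ℕ | (ρ.σ ^ i) (stt ρ q r0 par d.fst) = d}

/-- a hub: a rooted tree in the graph, together with the words of its vertices -/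
structure Hub {V : Type} {G : SimpleGraph V} (ρ : Rot G) where
  /-- vertex set -/
  H : Set V
  /-- root -/
  q : V
  /-- first dart at the root -/
  r0 : G.Dart
  /-- the dart from a vertex to its parent -/
  par : V → G.Dart
  /-- word of a vertex -/
  w : V → List ℕ
  hq : q ∈ H
  hr0 : r0.fst = q
  hpf : ∀ v ∈ H, v ≠ q → (par v).fst = v
  hps : ∀ v ∈ H, v ≠ q → (par v).snd ∈ H
  hwq : w q = []
  hwv : ∀ v ∈ H, v ≠ q → w v = w (par v).snd ++ [ixx ρ q r0 par (par v).symm]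

namespace Hub

variable {V : Type} {G : SimpleGraph V} {ρ : Rot G}

/-- local index -/
noncomputable def ix (𝓗 : Hub ρ) (d : G.Dart) : ℕ := ixx ρ 𝓗.q 𝓗.r0 𝓗.par d

/-- word of a dart; the darts at the hub are compared by their words in the lexicographic order
(prefixes first): the contour order -/
noncomputable def wd (𝓗 : Hub ρ) (d : G.Dart) : List ℕ := 𝓗.w d.fst ++ [𝓗.ix d]

/-- the tree darts -/
def Tr (𝓗 : Hub ρ) (d : G.Dart) : Prop :=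
  ∃ v ∈ 𝓗.H, v ≠ 𝓗.q ∧ (d = 𝓗.par v ∨ d = (𝓗.par v).symm)

/-- the smaller hub on a set closed under parents -/
def res (𝓗 : Hub ρ) (H' : Set V) (hq : 𝓗.q ∈ H') (hH : H' ⊆ 𝓗.H)
    (hp : ∀ v ∈ H', v ≠ 𝓗.q → (𝓗.par v).snd ∈ H') : Hub ρ where
  H := H'
  q := 𝓗.q
  r0 := 𝓗.r0
  par := 𝓗.par
  w := 𝓗.w
  hq := hq
  hr0 := 𝓗.hr0
  hpf := fun v hv => 𝓗.hpf v (hH hv)
  hps := hp
  hwq := 𝓗.hwq
  hwv := fun v hv => 𝓗.hwv v (hH hv)

/-- `𝓗'` extends `𝓗` -/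
structure Ext (𝓗 𝓗' : Hub ρ) : Prop where
  q : 𝓗'.q = 𝓗.q
  r0 : 𝓗'.r0 = 𝓗.r0
  sub : 𝓗.H ⊆ 𝓗'.H
  par : ∀ v ∈ 𝓗.H, 𝓗'.par v = 𝓗.par v
  w : ∀ v ∈ 𝓗.H, 𝓗'.w v = 𝓗.w v

end Hub

/-! ### Statements -/

section

variable {V : Type} {G : SimpleGraph V}

/-- two chords do not alternate -/
def NcCC (V : Type) : Prop :=
  ∀ [Finite V] (G : SimpleGraph V) (ρ : Rot G) (𝓗 : Hub ρ) (d e : G.Dart),
    d.fst ∈ 𝓗.H → d.snd ∈ 𝓗.H → e.fst ∈ 𝓗.H → e.snd ∈ 𝓗.H → ¬ 𝓗.Tr d → ¬ 𝓗.Tr e →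
    𝓗.wd d < 𝓗.wd e → 𝓗.wd e < 𝓗.wd d.symm → 𝓗.wd d.symm < 𝓗.wd e.symm → False

/-- a chord and a connected set in the complement do not alternate -/
def NcCX (V : Type) : Prop :=
  ∀ [Finite V] (G : SimpleGraph V) (ρ : Rot G) (𝓗 : Hub ρ) (d : G.Dart) (X : Set V)
    (x y : G.Dart),
    d.fst ∈ 𝓗.H → d.snd ∈ 𝓗.H → ¬ 𝓗.Tr d → (G.induce X).Connected → Disjoint X 𝓗.H →
    x.fst ∈ 𝓗.H → x.snd ∈ X → y.fst ∈ 𝓗.H → y.snd ∈ X →
    ((𝓗.wd d < 𝓗.wd x ∧ 𝓗.wd x < 𝓗.wd d.symm ∧ 𝓗.wd d.symm < 𝓗.wd y) ∨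
      (𝓗.wd x < 𝓗.wd d ∧ 𝓗.wd d < 𝓗.wd y ∧ 𝓗.wd y < 𝓗.wd d.symm)) → False

/-- two disjoint connected sets in the complement do not alternate -/
def NcXX (V : Type) : Prop :=
  ∀ [Finite V] (G : SimpleGraph V) (ρ : Rot G) (𝓗 : Hub ρ) (X Y : Set V)
    (x₁ x₂ y₁ y₂ : G.Dart),
    (G.induce X).Connected → (G.induce Y).Connected → Disjoint X 𝓗.H → Disjoint Y 𝓗.H →
    Disjoint X Y →
    x₁.fst ∈ 𝓗.H → x₁.snd ∈ X → x₂.fst ∈ 𝓗.H → x₂.snd ∈ X →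
    y₁.fst ∈ 𝓗.H → y₁.snd ∈ Y → y₂.fst ∈ 𝓗.H → y₂.snd ∈ Y →
    𝓗.wd x₁ < 𝓗.wd y₁ → 𝓗.wd y₁ < 𝓗.wd x₂ → 𝓗.wd x₂ < 𝓗.wd y₂ → False

/-- the L-tree: every arc that is not a tree arc goes left -/
def TwoL (V : Type) : Prop :=
  ∀ [Finite V] (G : SimpleGraph V) (ρ : Rot G) (D : V → V → Prop) (rk : V → ℕ) (H : Set V) (q : V)
    (r0 : G.Dart), (∀ u v, D u v → G.Adj u v) → (∀ u v, D u v → rk u < rk v) → q ∈ H →
    r0.fst = q → (∀ v ∈ H, v ≠ q → ∃ u ∈ H, D u v) →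
    ∃ 𝓗 : Hub ρ, 𝓗.H = H ∧ 𝓗.q = q ∧ 𝓗.r0 = r0 ∧ (∀ v ∈ H, v ≠ q → D (𝓗.par v).snd v) ∧
      ∀ e : G.Dart, e.fst ∈ H → e.snd ∈ H → D e.fst e.snd → e.symm ≠ 𝓗.par e.snd →
        𝓗.wd e.symm < 𝓗.wd e

/-- the R-tree: every arc that is not a tree arc goes right -/
def TwoR (V : Type) : Prop :=
  ∀ [Finite V] (G : SimpleGraph V) (ρ : Rot G) (D : V → V → Prop) (rk : V → ℕ) (H : Set V) (q : V)
    (r0 : G.Dart), (∀ u v, D u v → G.Adj u v) → (∀ u v, D u v → rk u < rk v) → q ∈ H →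
    r0.fst = q → (∀ v ∈ H, v ≠ q → ∃ u ∈ H, D u v) →
    ∃ 𝓗 : Hub ρ, 𝓗.H = H ∧ 𝓗.q = q ∧ 𝓗.r0 = r0 ∧ (∀ v ∈ H, v ≠ q → D (𝓗.par v).snd v) ∧
      ∀ e : G.Dart, e.fst ∈ H → e.snd ∈ H → D e.fst e.snd → e.symm ≠ 𝓗.par e.snd →
        𝓗.wd e < 𝓗.wd e.symm

end

end Pool.M1
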