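import Pool.Agent.H42.M1.Word

set_option autoImplicit false

open Equiv
open Pool.H96.W (Def sameCycle_closed sameCycle_mul_swap_iff)

namespace Pool.M1

/-- contraction of an edge joining two vertices -/
def ContrSt (D : Type) [DecidableEq D] : Prop :=
  ∀ (σ α : Perm D) (a b : D), (∀ x, α (α x) = x) → a ≠ b → α a = b → α b = a →
    ¬ σ.SameCycle a b → Def (σ * swap a b) (swap a b * α) = Def σ α

/-- if two permutations agree on a set closed under the second one, they have the same orbits there -/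
theorem sameCycle_agree {D : Type} [Finite D] {σ τ : Perm D} {P : D → Prop}
    (h : ∀ d, P d → τ d = σ d) (hP : ∀ d, P d → P (σ d)) {a b : D} (ha : P a)
    (hab : σ.SameCycle a b) : τ.SameCycle a b := by
  have := Fintype.ofFinite D
  classical
  obtain ⟨n, rfl⟩ := hab.exists_nat_pow_eq
  have key : ∀ n : ℕ, P ((σ ^ n) a) ∧ (τ ^ n) a = (σ ^ n) a := by
    intro n
    induction n with
    | zero => exact ⟨ha, rfl⟩
    | succ n ih =>
      rw [pow_succ', pow_succ', Perm.mul_apply, Perm.mul_apply, ih.2]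
      exact ⟨hP _ ih.1, h _ ih.1⟩
  refine ⟨n, ?_⟩
  rw [zpow_natCast]
  exact (key n).2

variable {V : Type} {G : SimpleGraph V} {ρ : Rot G} [Finite V]

omit [Finite V] in
theorem Hub.tr_symm (𝓗 : Hub ρ) {d : G.Dart} (h : 𝓗.Tr d) : 𝓗.Tr d.symm := by
  obtain ⟨v, hv, hvq, h | h⟩ := h
  · exact ⟨v, hv, hvq, Or.inr (by rw [h])⟩
  · exact ⟨v, hv, hvq, Or.inl (by rw [h, SimpleGraph.Dart.symm_symm])⟩

theorem merged [DecidableEq G.Dart] (hC : ContrSt G.Dart) : ∀ n : ℕ, ∀ 𝓗 : Hub ρ, 𝓗.H.ncard = n →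
    ∃ σ' α' : Perm G.Dart, Def σ' α' = 0 ∧ (∀ d, d.fst ∉ 𝓗.H → σ' d = ρ.σ d) ∧
      (∀ d, d.fst ∈ 𝓗.H → (σ' d).fst ∈ 𝓗.H) ∧
      (∀ d, d.fst ∈ 𝓗.H → σ' d = 𝓗.r0 ∨ 𝓗.wd d < 𝓗.wd (σ' d)) ∧
      (∀ d, d.fst ∈ 𝓗.H → σ'.SameCycle 𝓗.r0 d) ∧ (∀ d, 𝓗.Tr d → α' d = d) ∧
      (∀ d, ¬ 𝓗.Tr d → α' d = d.symm) := by
  have hfin : Finite G.Dart := by
    have := Fintype.ofFinite V
    classical
    infer_instance
  intro n
  induction n with
  | zero =>
    intro 𝓗 hn
    rw [Set.ncard_eq_zero (Set.toFinite _)] at hn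
    exact absurd 𝓗.hq (by rw [hn]; simp)
  | succ n ih =>
    intro 𝓗 hn
    by_cases hne : ∃ v ∈ 𝓗.H, v ≠ 𝓗.q
    · obtain ⟨v1, hv1, hv1q⟩ := hne
      obtain ⟨v, hv, hmax⟩ := Set.exists_max_image 𝓗.H (fun v => (𝓗.w v).length)
        (Set.toFinite _) ⟨v1, hv1⟩
      have hvq : v ≠ 𝓗.q := by
        rintro rfl
        have h1 := hmax v1 hv1
        have h2 := 𝓗.w_ne hv1 hv1q
        simp only [𝓗.hwq, List.length_nil, Nat.le_zero, List.length_eq_zero_iff] at h1
        exact h2 h1
      have hch : ∀ u ∈ 𝓗.H, u ≠ 𝓗.q → (𝓗.par u).snd ≠ v := by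
        intro u hu huq h
        have h1 := 𝓗.w_len hu huq
        rw [h] at h1
        have h2 := hmax u hu
        omega
      obtain ⟨𝓗₀, h𝓗₀⟩ : ∃ 𝓗₀ : Hub ρ, 𝓗₀ = 𝓗.res (𝓗.H \ {v}) ⟨𝓗.hq, fun h => hvq h.symm⟩
        Set.sdiff_subset (fun u hu huq => ⟨𝓗.hps u hu.1 huq, hch u hu.1 huq⟩) := ⟨_, rfl⟩
      have eH : 𝓗₀.H = 𝓗.H \ {v} := by rw [h𝓗₀]; rfl
      have eq0 : 𝓗₀.q = 𝓗.q := by rw [h𝓗₀]; rfl
      have er0 : 𝓗₀.r0 = 𝓗.r0 := by rw [h𝓗₀]; rfl
      have epar : 𝓗₀.par = 𝓗.par := by rw [h𝓗₀]; rfl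
      have ewd : ∀ d, 𝓗₀.wd d = 𝓗.wd d := by rw [h𝓗₀]; intro d; rfl
      obtain ⟨σ₀, α₀, k1, k2, k3, k4, k5, k6, k7⟩ := ih 𝓗₀ (by
        rw [eH]
        have := Set.ncard_sdiff_singleton_add_one hv (Set.toFinite _)
        omega)
      rw [eH] at k2 k3 k4 k5
      rw [er0] at k4 k5
      simp only [ewd] at k4
      obtain ⟨b, hb⟩ : ∃ b, b = 𝓗.par v := ⟨_, rfl⟩
      obtain ⟨a, ha⟩ : ∃ a, a = (𝓗.par v).symm := ⟨_, rfl⟩
      have hab : a = b.symm := by rw [ha, hb]
      have hba : b = a.symm := by rw [ha, hb, SimpleGraph.Dart.symm_symm]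
      have hbf : b.fst = v := by rw [hb]; exact 𝓗.hpf v hv hvq
      have has : a.snd = v := by rw [hab]; exact hbf
      have haf : a.fst ∈ 𝓗.H \ {v} := by
        rw [ha]; exact ⟨𝓗.hps v hv hvq, hch v hv hvq⟩
      have haf' : a.fst ∈ 𝓗₀.H := by rw [eH]; exact haf
      have hne : a ≠ b := by
        intro h
        have h1 := haf.2
        rw [h, hbf] at h1
        exact h1 rfl
      have hwv : 𝓗.w v = 𝓗.wd a := by rw [ha]; exact 𝓗.hwv' hv hvq
      have hta : ¬ 𝓗₀.Tr a := by
        rintro ⟨u, hu, huq, h | h⟩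
        · rw [eH] at hu
          rw [epar] at h
          rw [eq0] at huq
          exact hch u hu.1 huq (by rw [← h]; exact has)
        · rw [epar] at h
          rw [eH] at hu
          rw [eq0] at huq
          have h1 : a.snd = u := by rw [h]; exact 𝓗.hpf u hu.1 huq
          exact hu.2 (by rw [← h1]; exact has)
      have htb : ¬ 𝓗₀.Tr b := by
        intro h
        have := 𝓗₀.tr_symm h
        rw [← hab] at this
        exact hta this
      have hαa : α₀ a = b := by rw [k7 a hta, hba]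
      have hαb : α₀ b = a := by rw [k7 b htb, hab]
      have hnsc : ¬ σ₀.SameCycle a b := by
        intro h
        have h1 : b ∈ {d : G.Dart | d.fst ∈ 𝓗.H \ {v}} :=
          sameCycle_closed (fun x hx => k3 x hx) haf h
        have h2 : b.fst ∈ 𝓗.H \ {v} := h1
        rw [hbf] at h2
        exact h2.2 rfl
      have hσb : σ₀ b = ρ.σ b := k2 b (by rw [hbf]; exact fun h => h.2 rfl)
      have htr : ∀ d, 𝓗.Tr d ↔ (𝓗₀.Tr d ∨ d = a ∨ d = b) := by
        intro d
        constructor
        · rintro ⟨u, hu, huq, h⟩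
          by_cases huv : u = v
          · rw [huv, ← hb] at h
            right
            rcases h with h | h
            · exact Or.inr h
            · exact Or.inl (by rw [h, hab])
          · left
            exact ⟨u, by rw [eH]; exact ⟨hu, huv⟩, by rw [eq0]; exact huq, by rw [epar]; exact h⟩
        · rintro (⟨u, hu, huq, h⟩ | h | h)
          · rw [eH] at hu
            rw [eq0] at huq
            rw [epar] at h
            exact ⟨u, hu.1, huq, h⟩
          · exact ⟨v, hv, hvq, Or.inr (by rw [h, ha])⟩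
          · exact ⟨v, hv, hvq, Or.inl (by rw [h, hb])⟩
      refine ⟨σ₀ * swap a b, swap a b * α₀, ?_, ?_, ?_, ?_, ?_, ?_, ?_⟩
      · have hinv : ∀ x, α₀ (α₀ x) = x := by
          intro x
          by_cases hx : 𝓗₀.Tr x
          · rw [k6 x hx, k6 x hx]
          · have hx' : ¬ 𝓗₀.Tr x.symm := fun h => hx (by
              have := 𝓗₀.tr_symm h
              rwa [SimpleGraph.Dart.symm_symm] at this)
            rw [k7 x hx, k7 _ hx', SimpleGraph.Dart.symm_symm]
        rw [hC σ₀ α₀ a b hinv hne hαa hαb hnsc]; exact k1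
      · intro d hd
        have hda : d ≠ a := fun h => hd (h ▸ haf.1)
        have hdb : d ≠ b := fun h => hd (by rw [h, hbf]; exact hv)
        rw [Perm.mul_apply, swap_apply_of_ne_of_ne hda hdb]
        exact k2 d (fun h => hd h.1)
      · intro d hd
        rw [Perm.mul_apply]
        by_cases hda : d = a
        · rw [hda, swap_apply_left, hσb, ρ.hfst, hbf]; exact hv
        · by_cases hdb : d = b
          · rw [hdb, swap_apply_right]; exact (k3 a haf).1
          · rw [swap_apply_of_ne_of_ne hda hdb]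
            by_cases hdv : d.fst = v
            · rw [k2 d (fun h => h.2 hdv), ρ.hfst]; exact hd
            · exact (k3 d ⟨hd, hdv⟩).1
      · intro d hd
        rw [Perm.mul_apply]
        by_cases hda : d = a
        · right
          rw [hda, swap_apply_left, hσb]
          have h1 : 𝓗.wd (ρ.σ b) = 𝓗.wd a ++ [𝓗.ix (ρ.σ b)] := by
            rw [← hwv]
            unfold Hub.wd
            rw [ρ.hfst, hbf]
          rw [h1]
          exact lt_app _ (by simp)
        · by_cases hdb : d = b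
          · rw [hdb, swap_apply_right]
            rcases k4 a haf with h | h
            · exact Or.inl h
            · right
              have h1 : 𝓗.wd b = 𝓗.wd a ++ [𝓗.ix b] := by
                rw [← hwv]
                unfold Hub.wd
                rw [hbf]
              rw [h1]
              refine app_lt_of_lt' h ?_ _
              intro hp
              have h2 := 𝓗₀.pre_out (x := a) (d := σ₀ a) haf' (by rw [eH]; exact k3 a haf)
                (by rw [eH, has]; exact fun h => h.2 rfl) (by rw [ewd, ewd]; exact hp)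
              rw [h2] at h
              exact lt_irrefl _ h
          · rw [swap_apply_of_ne_of_ne hda hdb]
            by_cases hdv : d.fst = v
            · rw [k2 d (fun h => h.2 hdv)]
              right
              rcases 𝓗.ix_succ hd with h | h
              · exfalso
                rw [hdv, 𝓗.st_ne hvq, ← hb] at h
                exact hdb (ρ.σ.injective h)
              · unfold Hub.wd
                rw [ρ.hfst, app_lt_app, single_lt, h]
                exact Nat.lt_succ_self _
            · exact k4 d ⟨hd, hdv⟩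
      · intro d hd
        rw [sameCycle_mul_swap_iff hnsc]
        by_cases hdv : d.fst = v
        · right
          refine ⟨Or.inl (k5 a haf), Or.inr ?_⟩
          have h1 : ρ.σ.SameCycle d b := ρ.hcyc d b (by rw [hdv, hbf])
          refine sameCycle_agree (P := fun d => d.fst = v) ?_ ?_ hdv h1
          · intro d hd
            exact k2 d (fun h => h.2 hd)
          · intro d hd
            rw [ρ.hfst]; exact hd
        · left
          exact k5 d ⟨hd, hdv⟩
      · intro d hd
        rw [Perm.mul_apply]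
        rcases (htr d).1 hd with h | h | h
        · have hda : d ≠ a := fun h' => hta (h' ▸ h)
          have hdb : d ≠ b := fun h' => htb (h' ▸ h)
          rw [k6 d h, swap_apply_of_ne_of_ne hda hdb]
        · rw [h, hαa, swap_apply_right]
        · rw [h, hαb, swap_apply_left]
      · intro d hd
        have hd0 : ¬ 𝓗₀.Tr d := fun h => hd ((htr d).2 (Or.inl h))
        have hda : d ≠ a := fun h => hd ((htr d).2 (Or.inr (Or.inl h)))
        have hdb : d ≠ b := fun h => hd ((htr d).2 (Or.inr (Or.inr h)))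
        rw [Perm.mul_apply, k7 d hd0, swap_apply_of_ne_of_ne]
        · intro h
          apply hdb
          rw [hba, ← h, SimpleGraph.Dart.symm_symm]
        · intro h
          apply hda
          rw [hab, ← h, SimpleGraph.Dart.symm_symm]
    · push Not at hne
      have hq : ∀ d : G.Dart, d.fst ∈ 𝓗.H → d.fst = 𝓗.q := fun d hd => hne _ hd
      refine ⟨ρ.σ, rev G, ρ.pln, fun _ _ => rfl, ?_, ?_, ?_, ?_, fun _ _ => rfl⟩
      · intro d hd
        rw [ρ.hfst]; exact hd
      · intro d hd
        rcases 𝓗.ix_succ hd with h | h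
        · left
          rw [h, hq d hd, 𝓗.st_q]
        · right
          unfold Hub.wd
          rw [ρ.hfst, app_lt_app, single_lt, h]
          exact Nat.lt_succ_self _
      · intro d hd
        refine ρ.hcyc _ _ ?_
        rw [𝓗.hr0, hq d hd]
      · rintro d ⟨v, hv, hvq, _⟩
        exact absurd (hne v hv) hvq

/-- alternation in a cycle with increasing labels -/
theorem alt_cycle {D : Type} [Finite D] [DecidableEq D] {π : Perm D} {P : D → Prop}
    {f : D → List ℕ} {r0 : D} (h0 : P r0) (hP : ∀ d, P d → P (π d))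
    (hf : ∀ d, P d → π d = r0 ∨ f d < f (π d)) (hc : ∀ d, P d → π.SameCycle r0 d)
    {d e d' e' : D} (hd : P d) (he : P e) (hd' : P d') (he' : P e') (h1 : f d < f e)
    (h2 : f e < f d') (h3 : f d' < f e') : ¬ (π * swap d d').SameCycle e e' := by
  classical
  have hex : ∃ n, 0 < n ∧ (π ^ n) r0 = r0 :=
    ⟨orderOf π, orderOf_pos π, by rw [pow_orderOf_eq_one]; rfl⟩
  obtain ⟨N, hN⟩ : ∃ N, N = Nat.find hex := ⟨_, rfl⟩
  have hN1 : 0 < N ∧ (π ^ N) r0 = r0 := by rw [hN]; exact Nat.find_spec hex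
  have hN2 : ∀ m, m < N → 0 < m → (π ^ m) r0 ≠ r0 := by
    intro m hm hm0 h
    rw [hN] at hm
    exact Nat.find_min hex hm ⟨hm0, h⟩
  have hcP : ∀ k : ℕ, P ((π ^ k) r0) := by
    intro k
    induction k with
    | zero => exact h0
    | succ k ih =>
      rw [pow_succ', Perm.mul_apply]; exact hP _ ih
  have hstep : ∀ k : ℕ, k + 1 < N → f ((π ^ k) r0) < f ((π ^ (k + 1)) r0) := by
    intro k hk
    rcases hf _ (hcP k) with h | h
    · exact absurd (by rw [pow_succ', Perm.mul_apply]; exact h) (hN2 (k + 1) hk (Nat.succ_pos _))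
    · rw [pow_succ' π k, Perm.mul_apply]; exact h
  have hmono : ∀ j i : ℕ, i < j → j < N → f ((π ^ i) r0) < f ((π ^ j) r0) := by
    intro j
    induction j with
    | zero => intro i hi; exact absurd hi (Nat.not_lt_zero _)
    | succ j ih =>
      intro i hi hj
      rcases Nat.lt_succ_iff_lt_or_eq.1 hi with h | h
      · exact (ih i h (by omega)).trans (hstep j hj)
      · rw [h]; exact hstep j hj
  have hmono' : ∀ i j : ℕ, i < N → j < N → f ((π ^ i) r0) < f ((π ^ j) r0) → i < j := by
    intro i j hi hj h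
    by_contra hij
    rcases Nat.lt_or_eq_of_le (not_lt.1 hij) with h' | h'
    · exact lt_asymm h (hmono i j h' hi)
    · rw [h'] at h; exact lt_irrefl _ h
  have hall : ∀ x, P x → ∃ k, k < N ∧ (π ^ k) r0 = x := by
    intro x hx
    obtain ⟨n, hn⟩ := (hc x hx).exists_nat_pow_eq
    refine ⟨n % N, Nat.mod_lt _ hN1.1, ?_⟩
    rw [← hn]
    conv_rhs => rw [← Nat.mod_add_div n N]
    rw [pow_add, Perm.mul_apply]
    have : ∀ m : ℕ, (π ^ (N * m)) r0 = r0 := by
      intro m
      induction m with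
      | zero => simp
      | succ m ih => rw [Nat.mul_succ, pow_add, Perm.mul_apply, hN1.2, ih]
    rw [this]
  obtain ⟨i1, hi1, e1⟩ := hall d hd
  obtain ⟨i2, hi2, e2⟩ := hall e he
  obtain ⟨i3, hi3, e3⟩ := hall d' hd'
  obtain ⟨i4, hi4, e4⟩ := hall e' he'
  have l1 : i1 < i2 := hmono' i1 i2 hi1 hi2 (by rw [e1, e2]; exact h1)
  have l2 : i2 < i3 := hmono' i2 i3 hi2 hi3 (by rw [e2, e3]; exact h2)
  have l3 : i3 < i4 := hmono' i3 i4 hi3 hi4 (by rw [e3, e4]; exact h3)
  have hinj : ∀ i j : ℕ, i < N → j < N → (π ^ i) r0 = (π ^ j) r0 → i = j := by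
    intro i j hi hj h
    rcases lt_trichotomy i j with h' | h' | h'
    · have := hmono j i h' hj; rw [h] at this; exact absurd this (lt_irrefl _)
    · exact h'
    · have := hmono i j h' hi; rw [h] at this; exact absurd this (lt_irrefl _)
  intro hsc
  have hS : ∀ x ∈ {x : D | ∃ k, i1 < k ∧ k ≤ i3 ∧ x = (π ^ k) r0},
      (π * swap d d') x ∈ {x : D | ∃ k, i1 < k ∧ k ≤ i3 ∧ x = (π ^ k) r0} := by
    rintro x ⟨k, hk1, hk2, rfl⟩
    rw [Perm.mul_apply]
    by_cases hk : k = i3
    · rw [hk, e3, swap_apply_right]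
      exact ⟨i1 + 1, by omega, by omega, by rw [pow_succ', Perm.mul_apply, e1]⟩
    · have hne1 : (π ^ k) r0 ≠ d := by
        rw [← e1]; intro h
        have := hinj k i1 (by omega) hi1 h
        omega
      have hne2 : (π ^ k) r0 ≠ d' := by
        rw [← e3]; intro h
        exact hk (hinj k i3 (by omega) hi3 h)
      rw [swap_apply_of_ne_of_ne hne1 hne2]
      exact ⟨k + 1, by omega, by omega, by rw [pow_succ', Perm.mul_apply]⟩
  have := sameCycle_closed hS ⟨i2, l1, by omega, e2.symm⟩ hsc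
  obtain ⟨k, hk1, hk2, hk3⟩ := this
  rw [← e4] at hk3
  have := hinj i4 k hi4 (by omega) hk3
  omega

end Pool.M1
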