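import Pool.Agent.H42.M1.Word

set_option autoImplicit false

open Equiv

namespace Pool.M1

/-- the one-vertex hub -/
noncomputable def hub0 {V : Type} {G : SimpleGraph V} (ρ : Rot G) (q : V) (r0 : G.Dart)
    (h : r0.fst = q) : Hub ρ where
  H := {q}
  q := q
  r0 := r0
  par := fun _ => r0
  w := fun _ => []
  hq := rfl
  hr0 := h
  hpf := fun _ hv hne => absurd hv hne
  hps := fun _ hv hne => absurd hv hne
  hwq := rfl
  hwv := fun _ hv hne => absurd hv hne

theorem two_aux {V : Type} [Finite V] (G : SimpleGraph V) (ρ : Rot G) (D : V → V → Prop)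
    (rk : V → ℕ) (q : V) (r0 : G.Dart) (b : Bool) (hD : ∀ u v, D u v → G.Adj u v)
    (hrk : ∀ u v, D u v → rk u < rk v) (hr0 : r0.fst = q) : ∀ n : ℕ, ∀ H : Set V, H.ncard = n →
    q ∈ H → (∀ v ∈ H, v ≠ q → ∃ u ∈ H, D u v) →
    ∃ 𝓗 : Hub ρ, 𝓗.H = H ∧ 𝓗.q = q ∧ 𝓗.r0 = r0 ∧ (∀ v ∈ H, v ≠ q → D (𝓗.par v).snd v) ∧
      ∀ e : G.Dart, e.fst ∈ H → e.snd ∈ H → D e.fst e.snd → e.symm ≠ 𝓗.par e.snd →
        (b = true → 𝓗.wd e.symm < 𝓗.wd e) ∧ (b = false → 𝓗.wd e < 𝓗.wd e.symm) := by
  classical
  intro n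
  induction n with
  | zero =>
    intro H hn hq _
    rw [Set.ncard_eq_zero (Set.toFinite _)] at hn
    exact absurd hq (by rw [hn]; simp)
  | succ n ih =>
    intro H hn hq hin
    have hrkq : ∀ m : ℕ, ∀ u ∈ H, rk u = m → u ≠ q → rk q < rk u := by
      intro m
      induction m using Nat.strong_induction_on with
      | _ m ihm =>
        intro u hu hm huq
        obtain ⟨u', hu', hd⟩ := hin u hu huq
        have h1 := hrk _ _ hd
        by_cases h2 : u' = q
        · rw [← h2]; exact h1
        · exact (ihm (rk u') (by omega) u' hu' rfl h2).trans h1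
    obtain ⟨v, hv, hmax⟩ := Set.exists_max_image H rk (Set.toFinite _) ⟨q, hq⟩
    by_cases hvq : v = q
    · -- only the root
      have hH : H = {q} := by
        ext u
        constructor
        · intro hu
          by_contra hne
          have h1 := hrkq _ u hu rfl hne
          have h2 := hmax u hu
          rw [hvq] at h2
          omega
        · intro hu
          rw [Set.mem_singleton_iff] at hu
          rw [hu]; exact hq
      subst hH
      refine ⟨hub0 ρ q r0 hr0, rfl, rfl, rfl, fun v hv hne => absurd hv hne, ?_⟩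
      intro e he he' hd _
      rw [Set.mem_singleton_iff] at he he'
      rw [he, he'] at hd
      exact absurd (hrk _ _ hd) (lt_irrefl _)
    · have hqH : q ∈ H \ {v} := ⟨hq, fun h => hvq h.symm⟩
      have hout : ∀ u ∈ H, ¬ D v u := by
        intro u hu hd
        have h1 := hrk _ _ hd
        have h2 := hmax u hu
        omega
      obtain ⟨𝓗, hH, hHq, hHr, hHp, hHe⟩ := ih (H \ {v}) (by
        have := Set.ncard_diff_singleton_add_one hv (Set.toFinite _)
        omega) hqH (by
          rintro u ⟨hu, huv⟩ huq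
          obtain ⟨u', hu', hd⟩ := hin u hu huq
          refine ⟨u', ⟨hu', ?_⟩, hd⟩
          rintro rfl
          exact hout u hu hd)
      obtain ⟨u0, hu0, hd0⟩ := hin v hv hvq
      have hu0v : u0 ≠ v := by rintro rfl; exact hout _ hv hd0
      -- the chosen in-dart
      have hfin : Finite G.Dart := by
        have := Fintype.ofFinite V
        infer_instance
      have hch : ∃ a : G.Dart, a.fst ∈ H \ {v} ∧ a.snd = v ∧ D a.fst v ∧
          ∀ a' : G.Dart, a'.fst ∈ H \ {v} → a'.snd = v → D a'.fst v →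
            (b = true → 𝓗.wd a ≤ 𝓗.wd a') ∧ (b = false → 𝓗.wd a' ≤ 𝓗.wd a) := by
        have hne : {a : G.Dart | a.fst ∈ H \ {v} ∧ a.snd = v ∧ D a.fst v}.Nonempty :=
          ⟨⟨(u0, v), hD _ _ hd0⟩, ⟨hu0, hu0v⟩, rfl, hd0⟩
        cases b with
        | true =>
          obtain ⟨a, ha, ham⟩ := Set.exists_min_image _ 𝓗.wd (Set.toFinite _) hne
          exact ⟨a, ha.1, ha.2.1, ha.2.2, fun a' h1 h2 h3 =>
            ⟨fun _ => ham a' ⟨h1, h2, h3⟩, fun h => absurd h (by decide)⟩⟩
        | false =>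
          obtain ⟨a, ha, ham⟩ := Set.exists_max_image _ 𝓗.wd (Set.toFinite _) hne
          exact ⟨a, ha.1, ha.2.1, ha.2.2, fun a' h1 h2 h3 =>
            ⟨fun h => absurd h (by decide), fun _ => ham a' ⟨h1, h2, h3⟩⟩⟩
      obtain ⟨a, ha1, ha2, ha3, ha4⟩ := hch
      subst ha2
      have haH : a.fst ∈ 𝓗.H := by rw [hH]; exact ha1
      have haH' : a.snd ∉ 𝓗.H := by rw [hH]; exact fun h => h.2 rfl
      obtain ⟨𝓗', hE, hH', hp', hw'⟩ := 𝓗.ext1 a haH haH'
      refine ⟨𝓗', ?_, hE.q.trans hHq, hE.r0.trans hHr, ?_, ?_⟩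
      · rw [hH', hH]
        ext u
        simp only [Set.mem_insert_iff, Set.mem_diff, Set.mem_singleton_iff]
        constructor
        · rintro (rfl | h)
          · exact hv
          · exact h.1
        · intro h
          by_cases hu : u = a.snd
          · exact Or.inl hu
          · exact Or.inr ⟨h, hu⟩
      · intro u hu huq
        by_cases h : u = a.snd
        · rw [h, hp']; exact ha3
        · have huH : u ∈ H \ {a.snd} := ⟨hu, h⟩
          rw [hE.par u (by rw [hH]; exact huH)]
          exact hHp u huH huq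
      · intro e he he' hd hne
        have hef : e.fst ≠ a.snd := by
          intro h; rw [h] at hd; exact hout _ he' hd
        have heH : e.fst ∈ 𝓗.H := by rw [hH]; exact ⟨he, hef⟩
        by_cases h : e.snd = a.snd
        · have hea : e ≠ a := by
            rintro rfl
            exact hne hp'.symm
          have h1 : 𝓗'.wd e.symm = 𝓗.wd a ++ [𝓗'.ix e.symm] := by
            unfold Hub.wd
            have : e.symm.fst = a.snd := h
            rw [this, hw']
            rfl
          have h2 : 𝓗'.wd e = 𝓗.wd e := hE.wd heH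
          have h3 := ha4 e ⟨he, hef⟩ h (h ▸ hd)
          have h4 : 𝓗.wd a ≠ 𝓗.wd e := fun h' => hea (𝓗.wd_inj haH heH h').symm
          rw [h1, h2]
          constructor
          · intro hb
            exact app_lt_of_lt' (lt_of_le_of_ne (h3.1 hb) h4)
              (fun hp => hea (𝓗.pre_out haH heH haH' hp)) _
          · intro hb
            exact lt_app_of_lt (lt_of_le_of_ne (h3.2 hb) h4.symm) _
        · have heH' : e.snd ∈ 𝓗.H := by rw [hH]; exact ⟨he', h⟩
          have hes : e.symm.fst ∈ 𝓗.H := heH'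
          rw [hE.wd heH, hE.wd hes]
          refine hHe e ⟨he, hef⟩ ⟨he', h⟩ hd ?_
          rw [← hE.par _ heH']
          exact hne

theorem twoL {V : Type} : TwoL V := by
  intro _ G ρ D rk H q r0 hD hrk hq hr0 hin
  obtain ⟨𝓗, h1, h2, h3, h4, h5⟩ := two_aux G ρ D rk q r0 true hD hrk hr0 _ H rfl hq hin
  exact ⟨𝓗, h1, h2, h3, h4, fun e h h' h'' h3 => (h5 e h h' h'' h3).1 rfl⟩

theorem twoR {V : Type} : TwoR V := by
  intro _ G ρ D rk H q r0 hD hrk hq hr0 hin
  obtain ⟨𝓗, h1, h2, h3, h4, h5⟩ := two_aux G ρ D rk q r0 false hD hrk hr0 _ H rfl hq hin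
  exact ⟨𝓗, h1, h2, h3, h4, fun e h h' h'' h3 => (h5 e h h' h'' h3).2 rfl⟩

end Pool.M1
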