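import Pool.Agent.H42.M1.Sec
import Pool.Agent.H42.M1.Two

set_option autoImplicit false

open Equiv
open Pool.BD

namespace Pool.M1

variable {V : Type} {G : SimpleGraph V} {ρ : Rot G} [Finite V]

/-- cyclic order of three natural numbers -/
def CycN (a b c : ℕ) : Prop := (a < b ∧ b < c) ∨ (b < c ∧ c < a) ∨ (c < a ∧ a < b)

theorem cyc_arith {N k a1 a2 a3 b1 b2 b3 : ℕ} (h12 : a1 ≠ a2) (h23 : a2 ≠ a3) (h13 : a1 ≠ a3)
    (l1 : a1 < N) (l2 : a2 < N) (l3 : a3 < N)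
    (e1 : (k ≤ a1 ∧ b1 + k = a1) ∨ (a1 < k ∧ b1 + k = a1 + N))
    (e2 : (k ≤ a2 ∧ b2 + k = a2) ∨ (a2 < k ∧ b2 + k = a2 + N))
    (e3 : (k ≤ a3 ∧ b3 + k = a3) ∨ (a3 < k ∧ b3 + k = a3 + N)) :
    CycN a1 a2 a3 ↔ CycN b1 b2 b3 := by
  unfold CycN
  omega

/-- the cyclic order at a vertex does not depend on the hub -/
theorem cyc_ix (𝓐 𝓑 : Hub ρ) {u : V} (hA : u ∈ 𝓐.H) (hB : u ∈ 𝓑.H) :
    ∃ N k : ℕ, ∀ d : G.Dart, d.fst = u → 𝓐.ix d < N ∧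
      ((k ≤ 𝓐.ix d ∧ 𝓑.ix d + k = 𝓐.ix d) ∨ (𝓐.ix d < k ∧ 𝓑.ix d + k = 𝓐.ix d + N)) := by
  have hfin := fin_dart G
  classical
  obtain ⟨s, hs⟩ : ∃ s, s = 𝓐.st u := ⟨_, rfl⟩
  obtain ⟨t, ht⟩ : ∃ t, t = 𝓑.st u := ⟨_, rfl⟩
  have hsu : s.fst = u := by rw [hs]; exact 𝓐.st_fst hA
  have htu : t.fst = u := by rw [ht]; exact 𝓑.st_fst hB
  have hex : ∃ n, 0 < n ∧ (ρ.σ ^ n) s = s :=
    ⟨orderOf ρ.σ, orderOf_pos ρ.σ, by rw [pow_orderOf_eq_one]; rfl⟩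
  obtain ⟨N, hN⟩ : ∃ N, N = Nat.find hex := ⟨_, rfl⟩
  have hN1 : 0 < N ∧ (ρ.σ ^ N) s = s := by rw [hN]; exact Nat.find_spec hex
  have hN2 : ∀ m, m < N → 0 < m → (ρ.σ ^ m) s ≠ s := by
    intro m hm hm0 h
    rw [hN] at hm
    exact Nat.find_min hex hm ⟨hm0, h⟩
  have hinj' : ∀ i j : ℕ, i < j → j < N → (ρ.σ ^ i) s ≠ (ρ.σ ^ j) s := by
    intro i j hij hj h
    refine hN2 (j - i) (by omega) (by omega) ?_
    have e1 : (ρ.σ ^ i) ((ρ.σ ^ (j - i)) s) = (ρ.σ ^ i) s := by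
      rw [← Perm.mul_apply, ← pow_add, show i + (j - i) = j by omega, h]
    exact (ρ.σ ^ i).injective e1
  have hinj : ∀ i j : ℕ, i < N → j < N → (ρ.σ ^ i) s = (ρ.σ ^ j) s → i = j := by
    intro i j hi hj h
    rcases lt_trichotomy i j with h' | h' | h'
    · exact absurd h (hinj' i j h' hj)
    · exact h'
    · exact absurd h.symm (hinj' j i h' hi)
  have hAlt : ∀ d : G.Dart, d.fst = u → 𝓐.ix d < N ∧ (ρ.σ ^ (𝓐.ix d)) s = d := by
    intro d hd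
    have h1 := 𝓐.ix_spec (by rw [hd]; exact hA : d.fst ∈ 𝓐.H)
    rw [hd, ← hs] at h1
    refine ⟨?_, h1⟩
    by_contra hlt
    push Not at hlt
    have h2 : (ρ.σ ^ (𝓐.ix d - N)) (𝓐.st d.fst) = d := by
      rw [hd, ← hs]
      conv_rhs => rw [← h1, show 𝓐.ix d = 𝓐.ix d - N + N by omega, pow_add, Perm.mul_apply, hN1.2]
    have h3 := 𝓐.ix_le h2
    omega
  obtain ⟨hk1, hk2⟩ := hAlt t htu
  have htN : (ρ.σ ^ N) t = t := by
    rw [← hk2, ← Perm.mul_apply, ← pow_add, Nat.add_comm, pow_add, Perm.mul_apply, hN1.2]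
  refine ⟨N, 𝓐.ix t, ?_⟩
  intro d hd
  obtain ⟨ha1, ha2⟩ := hAlt d hd
  have h1 := 𝓑.ix_spec (by rw [hd]; exact hB : d.fst ∈ 𝓑.H)
  rw [hd, ← ht] at h1
  have hb1 : 𝓑.ix d < N := by
    by_contra hlt
    push Not at hlt
    have h2 : (ρ.σ ^ (𝓑.ix d - N)) (𝓑.st d.fst) = d := by
      rw [hd, ← ht]
      conv_rhs => rw [← h1, show 𝓑.ix d = 𝓑.ix d - N + N by omega, pow_add, Perm.mul_apply, htN]
    have h3 := 𝓑.ix_le h2
    omega
  refine ⟨ha1, ?_⟩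
  have h2 : (ρ.σ ^ (𝓑.ix d + 𝓐.ix t)) s = d := by
    rw [pow_add, Perm.mul_apply, hk2, h1]
  by_cases hlt : 𝓑.ix d + 𝓐.ix t < N
  · left
    have := hinj (𝓑.ix d + 𝓐.ix t) (𝓐.ix d) hlt ha1 (by rw [h2, ha2])
    omega
  · right
    have h3 : (ρ.σ ^ (𝓑.ix d + 𝓐.ix t - N)) s = d := by
      conv_rhs => rw [← h2, show 𝓑.ix d + 𝓐.ix t = 𝓑.ix d + 𝓐.ix t - N + N by omega, pow_add,
        Perm.mul_apply, hN1.2]
    have := hinj (𝓑.ix d + 𝓐.ix t - N) (𝓐.ix d) (by omega) ha1 (by rw [h3, ha2])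
    omega

theorem Hub.val_eq (𝓐 : Hub ρ) {u w : V} (hA : u ∈ 𝓐.H) (hq : u ≠ 𝓐.q) (h : G.Adj u w) :
    𝓐.ct.val u w = 𝓐.ct.pos u w := by
  unfold Ct.val
  split_ifs with hw
  · rw [𝓐.ct_hi hq, 𝓐.ct_pos h]
    have e : (⟨(u, w), h⟩ : G.Dart) = 𝓐.par u := by
      refine SimpleGraph.Dart.ext _ _ ?_
      exact Prod.ext (𝓐.hpf u hA hq).symm hw
    rw [e]
  · rfl

theorem Hub.pos_same (𝓐 : Hub ρ) {u a b : V} (hA : u ∈ 𝓐.H) (ha : G.Adj u a) (hb : G.Adj u b) :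
    𝓐.ct.pos u a < 𝓐.ct.pos u b ↔ 𝓐.ix ⟨(u, a), ha⟩ < 𝓐.ix ⟨(u, b), hb⟩ :=
  (𝓐.ct_pos_lt (d := ⟨(u, a), ha⟩) (e := ⟨(u, b), hb⟩) hA).trans
    (𝓐.wd_lt_same (d := ⟨(u, a), ha⟩) (e := ⟨(u, b), hb⟩) rfl)

theorem cyc_pos (𝓐 : Hub ρ) {u x y z : V} (hA : u ∈ 𝓐.H) (hx : G.Adj u x) (hy : G.Adj u y)
    (hz : G.Adj u z) : Cyc (𝓐.ct.pos u x) (𝓐.ct.pos u y) (𝓐.ct.pos u z) ↔
      CycN (𝓐.ix ⟨(u, x), hx⟩) (𝓐.ix ⟨(u, y), hy⟩) (𝓐.ix ⟨(u, z), hz⟩) := by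
  unfold Cyc CycN
  rw [𝓐.pos_same hA hx hy, 𝓐.pos_same hA hy hz, 𝓐.pos_same hA hz hx]

theorem rot_ok (𝓐 𝓑 : Hub ρ) {u : V} (hA : u ∈ 𝓐.H) (hB : u ∈ 𝓑.H) (hqA : u ≠ 𝓐.q)
    (hqB : u ≠ 𝓑.q) : ∀ x y z, G.Adj u x → G.Adj u y → G.Adj u z → x ≠ y → y ≠ z → x ≠ z →
    (Cyc (𝓐.ct.val u x) (𝓐.ct.val u y) (𝓐.ct.val u z) ↔
      Cyc (𝓑.ct.val u x) (𝓑.ct.val u y) (𝓑.ct.val u z)) := by
  intro x y z hx hy hz hxy hyz hxz
  rw [𝓐.val_eq hA hqA hx, 𝓐.val_eq hA hqA hy, 𝓐.val_eq hA hqA hz, 𝓑.val_eq hB hqB hx,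
    𝓑.val_eq hB hqB hy, 𝓑.val_eq hB hqB hz, cyc_pos 𝓐 hA hx hy hz, cyc_pos 𝓑 hB hx hy hz]
  obtain ⟨N, k, h⟩ := cyc_ix 𝓐 𝓑 hA hB
  obtain ⟨l1, e1⟩ := h ⟨(u, x), hx⟩ rfl
  obtain ⟨l2, e2⟩ := h ⟨(u, y), hy⟩ rfl
  obtain ⟨l3, e3⟩ := h ⟨(u, z), hz⟩ rfl
  have hne : ∀ {a b : V} (ha : G.Adj u a) (hb : G.Adj u b), a ≠ b →
      𝓐.ix ⟨(u, a), ha⟩ ≠ 𝓐.ix ⟨(u, b), hb⟩ := by
    intro a b ha hb hab h
    have := 𝓐.ix_inj (d := ⟨(u, a), ha⟩) (e := ⟨(u, b), hb⟩) hA rfl h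
    exact hab (congrArg (fun d : G.Dart => d.snd) this)
  exact cyc_arith (hne hx hy hxy) (hne hy hz hyz) (hne hx hz hxz) l1 l2 l3 e1 e2 e3

/-- the contour of a hub restricted to a sector -/
theorem Hub.isCt_sec (hCC : NcCC V) (hCX : NcCX V) (hXX : NcXX V) (𝓗 : Hub ρ)
    (hfull : IsCt G 𝓗.H 𝓗.q Set.univ 𝓗.ct) {x : G.Dart} (hx : x.fst ∈ 𝓗.H)
    (hxq : x.fst ≠ 𝓗.q)
    (hQ : ∀ w ∈ 𝓗.S x, G.Adj x.fst w → w ∈ SecQ G 𝓗.ct x.fst x.snd) :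
    IsCt G (𝓗.S x) x.fst (SecQ G 𝓗.ct x.fst x.snd) 𝓗.ct := by
  have hSH := 𝓗.S_sub hx
  have hdn : ∀ {u w : V}, Dn G (𝓗.S x) x.fst (SecQ G 𝓗.ct x.fst x.snd) 𝓗.ct u w →
      Dn G 𝓗.H 𝓗.q Set.univ 𝓗.ct u w := by
    intro u w h
    refine ⟨hSH h.1, h.2.1, fun _ => trivial, fun _ => ?_⟩
    by_cases hu : u = x.fst
    · have h1 : w ∈ SecQ G 𝓗.ct x.fst x.snd := h.2.2.1 hu
      rw [hu]; exact h1.2.1
    · exact h.2.2.2 hu
  have hch : ∀ {u w : V}, Ch (𝓗.S x) x.fst 𝓗.ct u w → Ch 𝓗.H 𝓗.q 𝓗.ct u w := by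
    intro u w h
    exact ⟨hSH h.1, 𝓗.S_q h.1 h.2.1, h.2.2⟩
  refine ⟨Or.inl rfl, ?_, hQ, ?_, ?_, ?_, ?_, ?_, ?_⟩
  · intro v hv hvx
    exact ⟨𝓗.S_par hx hv hvx, (hfull.par v (hSH hv) (𝓗.S_q hv hvx)).2⟩
  · intro v hv
    exact hfull.lh v (hSH hv)
  · intro u w h
    exact hfull.dn u w (hdn h)
  · intro w hw hwx
    exact hfull.ch w (hSH hw) (𝓗.S_q hw hwx)
  · intro u w w' h h'
    exact hfull.inj u w w' (hdn h) (hdn h')
  · intro u w w' h h' hlt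
    have := hfull.sep u w w' (hdn h) (hdn h') hlt
    exact ⟨fun h1 => this.1 (hch h1), fun h1 => this.2.1 (hch h1),
      fun h1 h2 => this.2.2 (hch h1) (hch h2)⟩
  · intro H' hH' hq hp X Y hXY d d' e e' fd fd' fe fe' lX lY
    obtain ⟨d1, d2⟩ := d
    obtain ⟨d1', d2'⟩ := d'
    obtain ⟨e1, e2⟩ := e
    obtain ⟨e1', e2'⟩ := e'
    have ad : G.Adj d1 d2 := fd.2.1.2.1
    have ad' : G.Adj d1' d2' := fd'.2.1.2.1
    have ae : G.Adj e1 e2 := fe.2.1.2.1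
    have ae' : G.Adj e1' e2' := fe'.2.1.2.1
    rintro ⟨l1, l2, l3⟩
    obtain ⟨𝓚, kH, kq, kr, kp, kw⟩ := 𝓗.sector hx
    have hix : ∀ (z : G.Dart), Ft G (𝓗.S x) H' x.fst (SecQ G 𝓗.ct x.fst x.snd) 𝓗.ct
        (z.fst, z.snd) → z.fst = x.fst → 𝓗.ix x < 𝓗.ix z := by
      intro z hz hzx
      have h1 : z.snd ∈ SecQ G 𝓗.ct x.fst x.snd := hz.2.1.2.2.1 hzx
      have h2 := h1.2.2
      have h3 : 𝓗.ct.pos x.fst x.snd < 𝓗.ct.pos z.fst z.snd := by rw [hzx]; exact h2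
      rw [𝓗.ct_pos_lt hx] at h3
      rwa [𝓗.wd_lt_same hzx.symm] at h3
    have key : ∀ (z : G.Dart), Ft G (𝓗.S x) H' x.fst (SecQ G 𝓗.ct x.fst x.snd) 𝓗.ct
        (z.fst, z.snd) → z.snd ∈ H' → ¬ 𝓚.Tr z := by
      intro z hz hs ht
      have hpf : ∀ v ∈ 𝓗.S x, v ≠ x.fst → (𝓗.par v).fst = v := fun v hv hvx =>
        𝓗.hpf v (hSH hv) (𝓗.S_q hv hvx)
      refine ft_tr hH' (par := 𝓗.par) (fun v => rfl) (fun v hv => hpf v (hH' hv)) hz hs ?_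
      obtain ⟨v, hv, hvq, h⟩ := ht
      rw [kH] at hv
      rw [kq] at hvq
      rw [kp] at h
      rcases h with h | h
      · have : v = z.fst := by rw [h]; exact (hpf v hv hvq).symm
        exact ⟨v, this ▸ hz.1, hvq, Or.inl h⟩
      · have : v = z.snd := by rw [h]; exact (hpf v hv hvq).symm
        exact ⟨v, this ▸ hs, hvq, Or.inr h⟩
    have L1 := (𝓗.ct_pos_lt (d := ⟨(d1, d2), ad⟩) (e := ⟨(e1, e2), ae⟩) (hSH (hH' fd.1))).1 l1
    have L2 := (𝓗.ct_pos_lt (d := ⟨(e1, e2), ae⟩) (e := ⟨(d1', d2'), ad'⟩) (hSH (hH' fe.1))).1 l2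
    have L3 := (𝓗.ct_pos_lt (d := ⟨(d1', d2'), ad'⟩) (e := ⟨(e1', e2'), ae'⟩)
      (hSH (hH' fd'.1))).1 l3
    rw [← kw _ _ (hH' fd.1) (hix _ fd) (hH' fe.1) (hix _ fe)] at L1
    rw [← kw _ _ (hH' fe.1) (hix _ fe) (hH' fd'.1) (hix _ fd')] at L2
    rw [← kw _ _ (hH' fd'.1) (hix _ fd') (hH' fe'.1) (hix _ fe')] at L3
    refine ncw hCC hCX hXX 𝓚 H' (by rw [kH]; exact hH') (by rw [kq]; exact hq)
      (by rw [kq, kp]; exact hp) X Y hXY ⟨(d1, d2), ad⟩ ⟨(d1', d2'), ad'⟩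
      ⟨(e1, e2), ae⟩ ⟨(e1', e2'), ae'⟩ fd.1 fd'.1 fe.1 fe'.1 (key _ fd) (key _ fe) ?_ ?_ L1 L2 L3
    · rcases lX with ⟨_, h1, h2⟩ | h
      · left
        refine ⟨h1, ?_⟩
        have h3 : d1' = d2 := congrArg Prod.fst h2
        have h4 : d2' = d1 := congrArg Prod.snd h2
        subst h3; subst h4
        rfl
      · exact Or.inr h
    · rcases lY with ⟨_, h1, h2⟩ | h
      · left
        refine ⟨h1, ?_⟩
        have h3 : e1' = e2 := congrArg Prod.fst h2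
        have h4 : e2' = e1 := congrArg Prod.snd h2
        subst h3; subst h4
        rfl
      · exact Or.inr h

/-- a one-vertex contour -/
theorem isCt_single (G : SimpleGraph V) (q : V) (h : ∀ w, ¬ G.Adj q w) :
    IsCt G {q} q Set.univ ⟨id, fun _ _ => 0, fun _ => 0, fun _ => 1⟩ := by
  have hno : ∀ u w : V, Dn G {q} q Set.univ ⟨id, fun _ _ => 0, fun _ => 0, fun _ => 1⟩ u w →
      False := by
    intro u w hd
    have h1 : u = q := hd.1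
    exact h w (h1 ▸ hd.2.1)
  refine ⟨rfl, ?_, ?_, ?_, ?_, ?_, ?_, ?_, ?_⟩
  · intro v hv hvq; exact absurd hv hvq
  · intro w _ _; trivial
  · intro v _; show (0 : ℤ) < 1; norm_num
  · intro u w hd; exact (hno u w hd).elim
  · intro w hw hwq; exact absurd hw hwq
  · intro u w w' hd; exact (hno u w hd).elim
  · intro u w w' hd; exact (hno u w hd).elim
  · intro H' _ _ _ X Y _ d d' e e' fd
    exact (hno _ _ fd.2.1).elim

/-- **block M** -/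
theorem mt (hCC : ∀ V : Type, NcCC V) (hCX : ∀ V : Type, NcCX V) (hXX : ∀ V : Type, NcXX V) :
    MTStmt (fun _ G => Nonempty (Rot G)) := by
  intro V _ G rk q0 ⟨ρ⟩ hinj hmin
  obtain ⟨U, hU⟩ : ∃ U, U = {v | Re G rk q0 v} := ⟨_, rfl⟩
  have hqU : q0 ∈ U := by rw [hU]; exact Relation.ReflTransGen.refl
  have hin : ∀ v ∈ U, v ≠ q0 → ∃ u ∈ U, Ar G rk u v := by
    intro v hv hvq
    rw [hU] at hv
    rcases Relation.ReflTransGen.cases_tail hv with h | ⟨u, h1, h2⟩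
    · exact absurd h hvq
    · exact ⟨u, by rw [hU]; exact h1, h2⟩
  by_cases hd0 : ∃ w, G.Adj q0 w
  swap
  · push Not at hd0
    have hU1 : U = {q0} := by
      ext v
      constructor
      · intro hv
        rw [hU] at hv
        rcases Relation.ReflTransGen.cases_head hv with h | ⟨u, h1, _⟩
        · exact h.symm
        · exact absurd h1.1 (hd0 u)
      · rintro rfl; exact hqU
    have hct := isCt_single G q0 hd0
    refine ⟨⟨id, fun _ _ => 0, fun _ => 0, fun _ => 1⟩, ⟨id, fun _ _ => 0, fun _ => 0, fun _ => 1⟩,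
      ?_, ?_⟩
    · rw [← hU, hU1]
      refine ⟨hct, hct, ?_, ?_, ?_, ?_, ?_, ?_⟩
      · intro v hv hvq; exact absurd hv hvq
      · intro v hv hvq; exact absurd hv hvq
      · intro u hu v hv ha
        rw [Set.mem_singleton_iff] at hu
        rw [hu] at ha
        exact absurd ha.1 (hd0 v)
      · intro u hu v hv ha
        rw [Set.mem_singleton_iff] at hu
        rw [hu] at ha
        exact absurd ha.1 (hd0 v)
      · intro u hu huq; exact absurd hu huq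
      · intro x _ y _ hx; exact absurd hx (hd0 x)
    · intro y u hy _ hyq
      exfalso
      have : y ∈ U := by rw [hU]; exact hy
      rw [hU1] at this
      exact hyq this
  obtain ⟨w0, hw0⟩ := hd0
  have hD : ∀ u v, Ar G rk u v → G.Adj u v := fun _ _ h => h.1
  have hrk : ∀ u v, Ar G rk u v → rk u < rk v := fun _ _ h => h.2
  obtain ⟨𝓛, lH, lq, lr, lp, le⟩ := twoL G ρ (Ar G rk) rk U q0 ⟨(q0, w0), hw0⟩ hD hrk hqU rfl hin
  obtain ⟨𝓡, rH, rq, rr, rp, re⟩ := twoR G ρ (Ar G rk) rk U q0 ⟨(q0, w0), hw0⟩ hD hrk hqU rfl hin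
  have hctL : IsCt G 𝓛.H 𝓛.q Set.univ 𝓛.ct :=
    𝓛.isCt Set.univ (fun _ _ _ => trivial) (𝓛.ncP (hCC V) (hCX V) (hXX V) _)
  have hctR : IsCt G 𝓡.H 𝓡.q Set.univ 𝓡.ct :=
    𝓡.isCt Set.univ (fun _ _ _ => trivial) (𝓡.ncP (hCC V) (hCX V) (hXX V) _)
  have hleft : ∀ u ∈ U, ∀ v ∈ U, Ar G rk u v → 𝓛.ct.par v ≠ u →
      𝓛.ct.pos v u < 𝓛.ct.pos u v := by
    intro u hu v hv ha hne
    have h1 := le ⟨(u, v), ha.1⟩ hu hv ha (by
      intro h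
      apply hne
      have h2 : (𝓛.par v).snd = u := by
        show (𝓛.par (⟨(u, v), ha.1⟩ : G.Dart).snd).snd = u
        rw [← h]; rfl
      exact h2)
    exact (𝓛.ct_pos_lt (d := (⟨(u, v), ha.1⟩ : G.Dart).symm) (e := ⟨(u, v), ha.1⟩)
      (by rw [lH]; exact hv)).2 h1
  refine ⟨𝓛.ct, 𝓡.ct, ?_, ?_⟩
  · rw [← hU]
    refine ⟨?_, ?_, ?_, ?_, hleft, ?_, ?_, ?_⟩
    · rw [← lH, ← lq]; exact hctL
    · rw [← rH, ← rq]; exact hctR
    · intro v hv hvq; exact hrk _ _ (lp v hv hvq)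
    · intro v hv hvq; exact hrk _ _ (rp v hv hvq)
    · intro u hu v hv ha hne
      have h1 := re ⟨(u, v), ha.1⟩ hu hv ha (by
        intro h
        apply hne
        have h2 : (𝓡.par v).snd = u := by
          show (𝓡.par (⟨(u, v), ha.1⟩ : G.Dart).snd).snd = u
          rw [← h]; rfl
        exact h2)
      exact (𝓡.ct_pos_lt (d := ⟨(u, v), ha.1⟩) (e := (⟨(u, v), ha.1⟩ : G.Dart).symm)
        (by rw [rH]; exact hu)).2 h1
    · intro u hu huq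
      exact rot_ok 𝓛 𝓡 (by rw [lH]; exact hu) (by rw [rH]; exact hu) (by rw [lq]; exact huq)
        (by rw [rq]; exact huq)
    · intro x _ y _ hx hy
      have h1 := 𝓛.pos_same (u := q0) (by rw [lH]; exact hqU) hx hy
      have h2 := 𝓡.pos_same (u := q0) (by rw [rH]; exact hqU) hx hy
      have h3 : ∀ z (hz : G.Adj q0 z), 𝓛.ix ⟨(q0, z), hz⟩ = 𝓡.ix ⟨(q0, z), hz⟩ := by
        intro z hz
        unfold Hub.ix ixx stt
        rw [if_pos (show (⟨(q0, z), hz⟩ : G.Dart).fst = 𝓛.q from lq.symm),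
          if_pos (show (⟨(q0, z), hz⟩ : G.Dart).fst = 𝓡.q from rq.symm), lr, rr]
      show 𝓛.ct.pos q0 x < 𝓛.ct.pos q0 y ↔ 𝓡.ct.pos q0 x < 𝓡.ct.pos q0 y
      rw [h1, h2, h3 x hx, h3 y hy]
  · intro y u hy hu hyq ha hne
    have hyU : y ∈ U := by rw [hU]; exact hy
    have huU : u ∈ U := by rw [hU]; exact hu
    obtain ⟨x, hx⟩ : ∃ x : G.Dart, x = ⟨(y, u), ha.1.symm⟩ := ⟨_, rfl⟩
    have hxf : x.fst = y := by rw [hx]
    have hxs : x.snd = u := by rw [hx]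
    have hxH : x.fst ∈ 𝓛.H := by rw [lH, hxf]; exact hyU
    have hxq : x.fst ≠ 𝓛.q := by rw [lq, hxf]; exact hyq
    have hxt : ¬ 𝓛.Tr x := by
      rintro ⟨v, hv, hvq, h | h⟩
      · apply hne
        have hv1 := 𝓛.hpf v hv hvq
        rw [← h, hxf] at hv1
        show (𝓛.par y).snd = u
        rw [hv1, ← h, hxs]
      · have hv1 : v = u := by
          have := 𝓛.hpf v hv hvq
          rw [← hxs, h]
          exact this.symm
        have h2 := hrk _ _ (lp v (by rw [← lH]; exact hv) (by rw [← lq]; exact hvq))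
        have h3 : (𝓛.par v).snd = y := by rw [← hxf, h]; rfl
        rw [h3, hv1] at h2
        have := ha.2
        omega
    have hS := 𝓛.S_eq hxH hxq hxt
    have hSU : 𝓛.S x ⊆ U := by rw [← lH]; exact 𝓛.S_sub hxH
    have hSrk : ∀ n : ℕ, ∀ v ∈ 𝓛.S x, v ≠ y → (𝓛.w v).length ≤ n → rk y < rk v := by
      intro n
      induction n with
      | zero =>
        intro v hv hvy hn
        exfalso
        exact 𝓛.w_ne (𝓛.S_sub hxH hv) (𝓛.S_q hv (by rw [hxf]; exact hvy))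
          (List.length_eq_zero_iff.1 (by omega))
      | succ n ih =>
        intro v hv hvy hn
        have hvx : v ≠ x.fst := by rw [hxf]; exact hvy
        have h1 := hrk _ _ (lp v (hSU hv) (by rw [← lq]; exact 𝓛.S_q hv hvx))
        by_cases hpy : (𝓛.par v).snd = y
        · rw [hpy] at h1; exact h1
        · have h2 := 𝓛.w_len (𝓛.S_sub hxH hv) (𝓛.S_q hv hvx)
          exact (ih _ (𝓛.S_par hxH hv hvx) hpy (by omega)).trans h1
    have hSrk' : ∀ v ∈ 𝓛.S x, v ≠ y → rk y < rk v := fun v hv hvy => hSrk _ v hv hvy le_rfl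
    have hQ : ∀ w ∈ 𝓛.S x, G.Adj x.fst w → w ∈ SecQ G 𝓛.ct x.fst x.snd := by
      intro w hw hadj
      have hwy : w ≠ y := by rintro rfl; rw [hxf] at hadj; exact hadj.ne rfl
      have hrw := hSrk' w hw hwy
      refine ⟨hadj, ?_, ?_⟩
      · intro h
        have h1 := hrk _ _ (lp y hyU hyq)
        rw [h, 𝓛.ct_par, hxf] at hrw
        omega
      · have harc : Ar G rk y w := ⟨hxf ▸ hadj, hrw⟩
        have hwU := hSU hw
        by_cases hpw : 𝓛.ct.par w = y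
        · -- tree child
          rcases hw with hw | ⟨hw, i, hi, hp⟩
          · exact absurd (hw.trans hxf) hwy
          · have hwq : w ≠ 𝓛.q := by
              rintro rfl
              rw [𝓛.hwq, List.prefix_nil] at hp
              simp at hp
            have h1 := 𝓛.hwv w hw hwq
            have h2 : (𝓛.par w).snd = x.fst := by rw [hxf]; exact hpw
            rw [h1, h2] at hp
            have h3 := hp.eq_of_length (by simp)
            have h4 : i = 𝓛.ix (𝓛.par w).symm := by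
              have := List.append_cancel_left h3
              exact List.singleton_inj.1 this
            have h5 : (⟨(x.fst, w), hadj⟩ : G.Dart) = (𝓛.par w).symm := by
              refine SimpleGraph.Dart.ext _ _ ?_
              exact Prod.ext h2.symm (𝓛.hpf w hw hwq).symm
            refine (𝓛.ct_pos_lt (d := x) (e := ⟨(x.fst, w), hadj⟩) hxH).2 ?_
            rw [𝓛.wd_lt_same (d := x) (e := ⟨(x.fst, w), hadj⟩) rfl, h5, ← h4]
            exact hi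
        · have h1 := hleft y hyU w hwU harc hpw
          have h2 : 𝓛.ct.pos x.fst x.snd < 𝓛.ct.pos w y := by
            refine (𝓛.ct_pos_lt (d := x) (e := ⟨(w, y), harc.1.symm⟩) hxH).2 ?_
            rcases hw with hw | ⟨hw, i, hi, hp⟩
            · exact absurd (hw.trans hxf) hwy
            · obtain ⟨t, ht⟩ := hp
              unfold Hub.wd
              show _ < 𝓛.w w ++ _
              rw [← ht, List.append_assoc, List.append_assoc, app_lt_app, List.singleton_append,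
                cons_lt']
              exact Or.inl hi
          rw [hxf] at h2 ⊢
          exact h2.trans h1
    have hxf' : (ρ.σ x).fst = y := by rw [ρ.hfst, hxf]
    have hin' : ∀ v ∈ 𝓛.S x, v ≠ y → ∃ u ∈ 𝓛.S x, Ar G rk u v := by
      intro v hv hvy
      have hvx : v ≠ x.fst := by rw [hxf]; exact hvy
      exact ⟨_, 𝓛.S_par hxH hv hvx, lp v (hSU hv) (by rw [← lq]; exact 𝓛.S_q hv hvx)⟩
    have hyS : y ∈ 𝓛.S x := Or.inl hxf.symm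
    obtain ⟨𝓣, tH, tq, tr, tp, te⟩ := twoR G ρ (Ar G rk) rk (𝓛.S x) y (ρ.σ x) hD hrk hyS hxf' hin'
    refine ⟨𝓣.ct, ?_⟩
    have e0 : Sec 𝓛.ct {v | Re G rk q0 v} y u = 𝓛.S x := by
      rw [← hS, lH, hU, hxf, hxs]
    have e1 : SecQ G 𝓛.ct y u = SecQ G 𝓛.ct x.fst x.snd := by rw [hxf, hxs]
    rw [e0, e1]
    have hctS := 𝓛.isCt_sec (hCC V) (hCX V) (hXX V) hctL hxH hxq hQ
    have hQ' : ∀ w ∈ 𝓣.H, G.Adj 𝓣.q w → w ∈ SecQ G 𝓛.ct x.fst x.snd := by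
      rw [tH, tq, ← hxf]; exact hQ
    have hctT : IsCt G 𝓣.H 𝓣.q (SecQ G 𝓛.ct x.fst x.snd) 𝓣.ct :=
      𝓣.isCt _ hQ' (𝓣.ncP (hCC V) (hCX V) (hXX V) _)
    refine ⟨?_, ?_, ?_, ?_, ?_, ?_, ?_, ?_⟩
    · rw [hxf] at hctS ⊢
      exact hctS
    · rw [← tH]
      rw [tq] at hctT
      exact hctT
    · intro v hv hvy
      exact hrk _ _ (lp v (hSU hv) (by rw [← lq]; exact 𝓛.S_q hv (by rw [hxf]; exact hvy)))
    · intro v hv hvy
      exact hrk _ _ (tp v hv hvy)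
    · intro a ha' b hb hab hne'
      exact hleft a (hSU ha') b (hSU hb) hab hne'
    · intro a ha' b hb hab hne'
      have h1 := te ⟨(a, b), hab.1⟩ ha' hb hab (by
        intro h
        apply hne'
        have h2 : (𝓣.par b).snd = a := by
          show (𝓣.par (⟨(a, b), hab.1⟩ : G.Dart).snd).snd = a
          rw [← h]; rfl
        exact h2)
      exact (𝓣.ct_pos_lt (d := ⟨(a, b), hab.1⟩) (e := (⟨(a, b), hab.1⟩ : G.Dart).symm)
        (by rw [tH]; exact ha')).2 h1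
    · intro a ha' hay
      exact rot_ok 𝓛 𝓣 (𝓛.S_sub hxH ha') (by rw [tH]; exact ha')
        (𝓛.S_q ha' (by rw [hxf]; exact hay)) (by rw [tq]; exact hay)
    · intro a haQ b hbQ haa hbb
      have hqa := haQ.2.2
      have hqb := hbQ.2.2
      have h1 := 𝓛.pos_same (u := y) (by rw [lH]; exact hyU) haa hbb
      have h2 := 𝓣.pos_same (u := y) (by rw [tH]; exact hyS) haa hbb
      have h3 : ∀ z (hz : G.Adj y z), 𝓛.ct.pos x.fst x.snd < 𝓛.ct.pos x.fst z →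
          𝓛.ix x < 𝓛.ix ⟨(y, z), hz⟩ ∧
          𝓣.ix ⟨(y, z), hz⟩ = 𝓛.ix ⟨(y, z), hz⟩ - (𝓛.ix x + 1) := by
        intro z hz hlt
        have h4 : 𝓛.ct.pos x.fst x.snd < 𝓛.ct.pos (⟨(y, z), hz⟩ : G.Dart).fst z := by
          show _ < 𝓛.ct.pos y z
          rw [← hxf]; exact hlt
        have h5 := (𝓛.ct_pos_lt (d := x) (e := ⟨(y, z), hz⟩) hxH).1 h4
        rw [𝓛.wd_lt_same (show x.fst = (⟨(y, z), hz⟩ : G.Dart).fst from hxf)] at h5
        refine ⟨h5, ?_⟩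
        have h6 := 𝓛.ixs hxH (show (⟨(y, z), hz⟩ : G.Dart).fst = x.fst from hxf.symm) h5 𝓣.par
        rw [← h6]
        unfold Hub.ix
        rw [tq, tr, hxf]
      obtain ⟨a1, a2⟩ := h3 a haa hqa
      obtain ⟨b1, b2⟩ := h3 b hbb hqb
      show 𝓛.ct.pos y a < 𝓛.ct.pos y b ↔ 𝓣.ct.pos y a < 𝓣.ct.pos y b
      rw [h1, h2, a2, b2]
      omega

end Pool.M1
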