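import Pool.Agent.H42.M1.Merged
import Pool.Agent.H42.M1.Absorb
import Pool.Agent.H42.M1.Mt
import Pool.Agent.H96.W.Euler
import Pool.Agent.H96.W.Contract

set_option autoImplicit false

open Equiv
open Pool.H96.W (Def Conn Sub)

namespace Pool.M1

/-- two chords of a hub do not alternate -/
theorem ncCC {V : Type} : NcCC V := by
  classical
  intro _ G ρ 𝓗 d e hd hd' he he' htd hte l1 l2 l3
  have hfin : Finite G.Dart := fin_dart G
  obtain ⟨σ', α', k1, -, k3, k4, k5, k6, k7⟩ := merged (ρ := ρ)
    (fun σ α a b hinv _ hab _ hs => Pool.H96.W.Def_contract hinv hab hs) _ 𝓗 rfl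
  have hinv : ∀ x, α' (α' x) = x := by
    intro x
    by_cases hx : 𝓗.Tr x
    · rw [k6 x hx, k6 x hx]
    · have hx' : ¬ 𝓗.Tr x.symm := fun h => hx (by
        have := 𝓗.tr_symm h
        rwa [SimpleGraph.Dart.symm_symm] at this)
      rw [k7 x hx, k7 _ hx', SimpleGraph.Dart.symm_symm]
  have ne_of : ∀ {a b : G.Dart}, 𝓗.wd a < 𝓗.wd b → a ≠ b := by
    rintro a b h rfl
    exact lt_irrefl _ h
  have n1 : d ≠ e := ne_of l1
  have n2 : e ≠ d.symm := ne_of l2
  have n3 : d.symm ≠ e.symm := ne_of l3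
  have n4 : d ≠ d.symm := ne_of (l1.trans l2)
  have n5 : e ≠ e.symm := ne_of (l2.trans l3)
  have n6 : d ≠ e.symm := ne_of ((l1.trans l2).trans l3)
  have hds : d.symm.fst ∈ 𝓗.H := hd'
  have hes : e.symm.fst ∈ 𝓗.H := he'
  have hr0 : 𝓗.r0.fst ∈ 𝓗.H := by rw [𝓗.hr0]; exact 𝓗.hq
  have hns : ¬ (σ' * swap d d.symm).SameCycle e e.symm :=
    alt_cycle (P := fun d : G.Dart => d.fst ∈ 𝓗.H) (f := 𝓗.wd) hr0 k3 k4 k5 hd he hds hes l1 l2 l3
  have hsc : σ'.SameCycle e e.symm := (k5 e he).symm.trans (k5 e.symm hes)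
  have ha : swap d d.symm e = e := swap_apply_of_ne_of_ne n1.symm n2
  have hb : swap d d.symm e.symm = e.symm := swap_apply_of_ne_of_ne n6.symm n3.symm
  have h1 := Pool.H96.W.Def_step_up (σ := σ') (α := swap d d.symm) ha hb hns
    (Pool.H96.W.Conn.of_sameCycle hsc)
  have h2 := Pool.H96.W.Def_nonneg (σ := σ') (α := swap d d.symm) (fun x => swap_apply_self _ _ x)
  have htd' : ¬ 𝓗.Tr d.symm := fun h => htd (by
    have := 𝓗.tr_symm h
    rwa [SimpleGraph.Dart.symm_symm] at this)
  have hte' : ¬ 𝓗.Tr e.symm := fun h => hte (by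
    have := 𝓗.tr_symm h
    rwa [SimpleGraph.Dart.symm_symm] at this)
  have hval : ∀ x, (swap d d.symm * swap e e.symm) x = x ∨
      (swap d d.symm * swap e e.symm) x = α' x := by
    intro x
    rw [Perm.mul_apply]
    by_cases x1 : x = e
    · right
      rw [x1, swap_apply_left, hb, k7 e hte]
    · by_cases x2 : x = e.symm
      · right
        rw [x2, swap_apply_right, ha, k7 _ hte', SimpleGraph.Dart.symm_symm]
      · rw [swap_apply_of_ne_of_ne x1 x2]
        by_cases x3 : x = d
        · right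
          rw [x3, swap_apply_left, k7 d htd]
        · by_cases x4 : x = d.symm
          · right
            rw [x4, swap_apply_right, k7 _ htd', SimpleGraph.Dart.symm_symm]
          · left
            exact swap_apply_of_ne_of_ne x3 x4
  have hinv0 : ∀ x, (swap d d.symm * swap e e.symm) ((swap d d.symm * swap e e.symm) x) = x := by
    intro x
    rw [Perm.mul_apply, Perm.mul_apply]
    by_cases x1 : x = e
    · rw [x1, swap_apply_left, hb, swap_apply_right, ha]
    · by_cases x2 : x = e.symm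
      · rw [x2, swap_apply_right, ha, swap_apply_left, hb]
      · rw [swap_apply_of_ne_of_ne x1 x2]
        by_cases x3 : x = d
        · rw [x3, swap_apply_left, swap_apply_of_ne_of_ne n2.symm n3, swap_apply_right]
        · by_cases x4 : x = d.symm
          · rw [x4, swap_apply_right, swap_apply_of_ne_of_ne n1 n6, swap_apply_left]
          · rw [swap_apply_of_ne_of_ne x3 x4, swap_apply_of_ne_of_ne x1 x2,
              swap_apply_of_ne_of_ne x3 x4]
  have h3 := Pool.H96.W.Def_sub hinv hinv0 hval k1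
  omega

theorem ncCX {V : Type} : NcCX V := ncCX_of ncCC

theorem ncXX {V : Type} : NcXX V := ncXX_of ncCX

/-- **block M**: contours from a rotation system of genus zero -/
theorem mtStmt : Pool.BD.MTStmt (fun _ G => Nonempty (Rot G)) :=
  mt (fun _ => ncCC) (fun _ => ncCX) (fun _ => ncXX)

end Pool.M1
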