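import Pool.Agent.H42.M1.ToCt
import Pool.Agent.H42.M1.Absorb
import Pool.Agent.H42.WG.Fin

set_option autoImplicit false

open Equiv
open Pool.BD

namespace Pool.M1

variable {V : Type} {G : SimpleGraph V} {ρ : Rot G}

theorem cn_reach {X : Set V} {a b : V} (h : Cn G X a b) :
    ∃ (ha : a ∈ X) (hb : b ∈ X), (G.induce X).Reachable ⟨a, ha⟩ ⟨b, hb⟩ := by
  obtain ⟨ha, h⟩ := h
  refine ⟨ha, ?_⟩
  induction h with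
  | refl => exact ⟨ha, SimpleGraph.Reachable.refl _⟩
  | tail _ hbc ih =>
    obtain ⟨hb, hr⟩ := ih
    exact ⟨hbc.2, hr.trans (SimpleGraph.Adj.reachable hbc.1)⟩

theorem cn_set {X : Set V} {a b : V} (h : Cn G X a b) :
    ∃ X' ⊆ X, a ∈ X' ∧ b ∈ X' ∧ (G.induce X').Connected := by
  obtain ⟨ha, hb, hr⟩ := cn_reach h
  refine ⟨{b | ∃ h : b ∈ X, (G.induce X).Reachable ⟨a, ha⟩ ⟨b, h⟩}, ?_, ?_, ?_, ?_⟩
  · rintro b ⟨hb, _⟩; exact hb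
  · exact ⟨ha, SimpleGraph.Reachable.refl _⟩
  · exact ⟨hb, hr⟩
  · exact Pool.WG.reach_conn G X a ha

/-- noncrossing, in terms of words -/
theorem ncw [Finite V] (hCC : NcCC V) (hCX : NcCX V) (hXX : NcXX V) (𝓗 : Hub ρ) (H' : Set V)
    (h1 : H' ⊆ 𝓗.H) (hq : 𝓗.q ∈ H') (hp : ∀ v ∈ H', v ≠ 𝓗.q → (𝓗.par v).snd ∈ H')
    (X Y : Set V) (hXY : Disjoint X Y) (d d' e e' : G.Dart)
    (hd : d.fst ∈ H') (hd' : d'.fst ∈ H') (he : e.fst ∈ H') (he' : e'.fst ∈ H')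
    (td : d.snd ∈ H' → ¬ 𝓗.Tr d) (te : e.snd ∈ H' → ¬ 𝓗.Tr e)
    (lX : (d.snd ∈ H' ∧ d' = d.symm) ∨ (Disjoint X H' ∧ Cn G X d.snd d'.snd))
    (lY : (e.snd ∈ H' ∧ e' = e.symm) ∨ (Disjoint Y H' ∧ Cn G Y e.snd e'.snd))
    (l1 : 𝓗.wd d < 𝓗.wd e) (l2 : 𝓗.wd e < 𝓗.wd d') (l3 : 𝓗.wd d' < 𝓗.wd e') : False := by
  obtain ⟨𝓗₀, h𝓗₀⟩ : ∃ 𝓗₀ : Hub ρ, 𝓗₀ = 𝓗.res H' hq h1 hp := ⟨_, rfl⟩
  have eH : 𝓗₀.H = H' := by rw [h𝓗₀]; rfl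
  have ewd : ∀ d, 𝓗₀.wd d = 𝓗.wd d := by rw [h𝓗₀]; intro d; rfl
  have etr : ∀ d, 𝓗₀.Tr d → 𝓗.Tr d := by
    rw [h𝓗₀]
    rintro d ⟨v, hv, hvq, h⟩
    exact ⟨v, h1 hv, hvq, h⟩
  rw [← ewd d, ← ewd e] at l1
  rw [← ewd e, ← ewd d'] at l2
  rw [← ewd d', ← ewd e'] at l3
  rw [← eH] at hd hd' he he' td te lX lY
  rcases lX with ⟨hX1, rfl⟩ | ⟨hX1, hX2⟩
  · rcases lY with ⟨hY1, rfl⟩ | ⟨hY1, hY2⟩
    · exact hCC G ρ 𝓗₀ d e hd hX1 he hY1 (fun h => td hX1 (etr _ h)) (fun h => te hY1 (etr _ h))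
        l1 l2 l3
    · obtain ⟨Y', hY', hyd, hyd', hYc⟩ := cn_set hY2
      exact hCX G ρ 𝓗₀ d Y' e e' hd hX1 (fun h => td hX1 (etr _ h)) hYc (hY1.mono_left hY') he hyd
        he' hyd' (Or.inl ⟨l1, l2, l3⟩)
  · obtain ⟨X', hX', hxd, hxd', hXc⟩ := cn_set hX2
    rcases lY with ⟨hY1, rfl⟩ | ⟨hY1, hY2⟩
    · exact hCX G ρ 𝓗₀ e X' d d' he hY1 (fun h => te hY1 (etr _ h)) hXc (hX1.mono_left hX') hd hxd
        hd' hxd' (Or.inr ⟨l1, l2, l3⟩)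
    · obtain ⟨Y', hY', hyd, hyd', hYc⟩ := cn_set hY2
      exact hXX G ρ 𝓗₀ X' Y' d d' e e' hXc hYc (hX1.mono_left hX') (hY1.mono_left hY')
        (hXY.mono hX' hY') hd hxd hd' hxd' he hyd he' hyd' l1 l2 l3

/-- the feet condition of `IsCt` in terms of darts: `𝓗` is used for the words, the hub `K` with
root `p` for the sector -/
theorem ft_tr {H' Q K : Set V} {p : V} {c : Ct V} {d : G.Dart} (hK : H' ⊆ K)
    {par : V → G.Dart} (hpar : ∀ v, c.par v = (par v).snd)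
    (hpf : ∀ v ∈ H', v ≠ p → (par v).fst = v)
    (h : Ft G K H' p Q c (d.fst, d.snd)) (hs : d.snd ∈ H') :
    ¬ ∃ v ∈ H', v ≠ p ∧ (d = par v ∨ d = (par v).symm) := by
  obtain ⟨h1, h2, h3⟩ := h
  rintro ⟨v, hv, hvp, hd | hd⟩
  · have hvd : v = d.fst := by rw [hd]; exact (hpf v hv hvp).symm
    have h4 := h2.2.2.2 (by show d.fst ≠ p; rw [← hvd]; exact hvp)
    apply h4
    show d.snd = c.par d.fst
    rw [hpar, ← hvd, hd]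
  · have hvd : v = d.snd := by rw [hd]; exact (hpf v hv hvp).symm
    apply h3
    refine ⟨⟨hK hs, ?_, ?_⟩, hs⟩
    · show d.snd ≠ p
      rw [← hvd]; exact hvp
    · show c.par d.snd = d.fst
      rw [hpar, ← hvd, hd]; rfl

/-- the noncrossing property of the contour of a hub -/
theorem Hub.ncP [Finite V] (hCC : NcCC V) (hCX : NcCX V) (hXX : NcXX V) (𝓗 : Hub ρ) (Q : Set V) :
    𝓗.NcP Q 𝓗.ct := by
  intro H' hH' hq hp X Y hXY d d' e e' fd fd' fe fe' lX lY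
  obtain ⟨d1, d2⟩ := d
  obtain ⟨d1', d2'⟩ := d'
  obtain ⟨e1, e2⟩ := e
  obtain ⟨e1', e2'⟩ := e'
  have ad : G.Adj d1 d2 := fd.2.1.2.1
  have ad' : G.Adj d1' d2' := fd'.2.1.2.1
  have ae : G.Adj e1 e2 := fe.2.1.2.1
  have ae' : G.Adj e1' e2' := fe'.2.1.2.1
  rintro ⟨l1, l2, l3⟩
  have hdH : d1 ∈ 𝓗.H := hH' fd.1
  have hdH' : d1' ∈ 𝓗.H := hH' fd'.1
  have heH : e1 ∈ 𝓗.H := hH' fe.1
  have L1 := (𝓗.ct_pos_lt (d := ⟨(d1, d2), ad⟩) (e := ⟨(e1, e2), ae⟩) hdH).1 l1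
  have L2 := (𝓗.ct_pos_lt (d := ⟨(e1, e2), ae⟩) (e := ⟨(d1', d2'), ad'⟩) heH).1 l2
  have L3 := (𝓗.ct_pos_lt (d := ⟨(d1', d2'), ad'⟩) (e := ⟨(e1', e2'), ae'⟩) hdH').1 l3
  have hpf : ∀ v ∈ H', v ≠ 𝓗.q → (𝓗.par v).fst = v := fun v hv => 𝓗.hpf v (hH' hv)
  have key : ∀ (z : G.Dart), Ft G 𝓗.H H' 𝓗.q Q 𝓗.ct (z.fst, z.snd) → z.snd ∈ H' →
      ¬ 𝓗.Tr z := by
    intro z hz hs ht
    refine ft_tr hH' (par := 𝓗.par) (fun v => rfl) hpf hz hs ?_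
    obtain ⟨v, hv, hvq, h | h⟩ := ht
    · have : v = z.fst := by rw [h]; exact (𝓗.hpf v hv hvq).symm
      exact ⟨v, this ▸ hz.1, hvq, Or.inl h⟩
    · have : v = z.snd := by rw [h]; exact (𝓗.hpf v hv hvq).symm
      exact ⟨v, this ▸ hs, hvq, Or.inr h⟩
  refine ncw hCC hCX hXX 𝓗 H' hH' hq hp X Y hXY ⟨(d1, d2), ad⟩ ⟨(d1', d2'), ad'⟩
    ⟨(e1, e2), ae⟩ ⟨(e1', e2'), ae'⟩ fd.1 fd'.1 fe.1 fe'.1 (key _ fd) (key _ fe) ?_ ?_ L1 L2 L3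
  · rcases lX with ⟨_, h1, h2⟩ | h
    · left
      refine ⟨h1, ?_⟩
      have h3 : d1' = d2 := congrArg Prod.fst h2
      have h4 : d2' = d1 := congrArg Prod.snd h2
      subst h3; subst h4
      rfl
    · exact Or.inr h
  · rcases lY with ⟨_, h1, h2⟩ | h
    · left
      refine ⟨h1, ?_⟩
      have h3 : e1' = e2 := congrArg Prod.fst h2
      have h4 : e2' = e1 := congrArg Prod.snd h2
      subst h3; subst h4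
      rfl
    · exact Or.inr h

end Pool.M1
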