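import Pool.Agent.H42.M1.Ncw

set_option autoImplicit false

open Equiv
open Pool.BD

namespace Pool.M1

/-- sandwiched words -/
theorem sandwich : ∀ {l m s t : List ℕ}, l ++ s < m → m < l ++ t → l <+: m
  | [], _, _, _, _, _ => List.nil_prefix
  | a :: l, [], s, _, h, _ => absurd h (by simp)
  | a :: l, b :: m, s, t, h1, h2 => by
    rw [List.cons_append, cons_lt'] at h1
    rw [List.cons_append, cons_lt'] at h2
    have hab : a = b := by
      rcases h1 with h1 | h1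
      · rcases h2 with h2 | h2
        · omega
        · omega
      · exact h1.1
    subst hab
    rcases h1 with h1 | h1
    · exact absurd h1 (lt_irrefl _)
    · rcases h2 with h2 | h2
      · exact absurd h2 (lt_irrefl _)
      · exact (List.prefix_cons_inj a).2 (sandwich h1.2 h2.2)

/-- shift of the first letter -/
def shf (k : ℕ) : List ℕ → List ℕ
  | [] => []
  | i :: t => (i - k) :: t

theorem shf_app {k : ℕ} {l : List ℕ} (h : l ≠ []) (s : List ℕ) :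
    shf k (l ++ s) = shf k l ++ s := by
  cases l with
  | nil => exact absurd rfl h
  | cons a l => rfl

theorem shf_lt {k i j : ℕ} {s t : List ℕ} (hi : k ≤ i) (hj : k ≤ j) :
    shf k (i :: s) < shf k (j :: t) ↔ i :: s < j :: t := by
  show (i - k) :: s < (j - k) :: t ↔ _
  rw [cons_lt', cons_lt']
  constructor
  · rintro (h | h)
    · left; omega
    · right; exact ⟨by omega, h.2⟩
  · rintro (h | h)
    · left; omega
    · right; exact ⟨by omega, h.2⟩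

variable {V : Type} {G : SimpleGraph V} {ρ : Rot G} [Finite V]

/-- prefixes of the word of a vertex are words of vertices -/
theorem Hub.anc (𝓗 : Hub ρ) : ∀ n : ℕ, ∀ v ∈ 𝓗.H, (𝓗.w v).length ≤ n → ∀ l, l <+: 𝓗.w v →
    ∃ z ∈ 𝓗.H, 𝓗.w z = l := by
  intro n
  induction n with
  | zero =>
    intro v hv hn l hl
    have h0 : 𝓗.w v = [] := List.length_eq_zero_iff.1 (by omega)
    rw [h0, List.prefix_nil] at hl
    exact ⟨v, hv, by rw [h0, hl]⟩
  | succ n ih =>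
    intro v hv hn l hl
    by_cases hvq : v = 𝓗.q
    · have h0 : 𝓗.w v = [] := by rw [hvq]; exact 𝓗.hwq
      rw [h0, List.prefix_nil] at hl
      exact ⟨v, hv, by rw [h0, hl]⟩
    · have h1 := 𝓗.w_len hv hvq
      have h2 := 𝓗.hwv v hv hvq
      rw [h2, prefix_single] at hl
      rcases hl with hl | hl
      · exact ⟨v, hv, by rw [h2, hl]⟩
      · exact ih _ (𝓗.hps v hv hvq) (by omega) l hl

/-- the set of the sector right of the dart `x` -/
def Hub.S (𝓗 : Hub ρ) (x : G.Dart) : Set V :=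
  {v | v = x.fst ∨ (v ∈ 𝓗.H ∧ ∃ i, 𝓗.ix x < i ∧ 𝓗.w x.fst ++ [i] <+: 𝓗.w v)}

omit [Finite V] in
theorem Hub.S_sub (𝓗 : Hub ρ) {x : G.Dart} (hx : x.fst ∈ 𝓗.H) : 𝓗.S x ⊆ 𝓗.H := by
  rintro v (rfl | h)
  · exact hx
  · exact h.1

omit [Finite V] in
theorem Hub.S_q (𝓗 : Hub ρ) {x : G.Dart} {v : V} (hv : v ∈ 𝓗.S x) (h : v ≠ x.fst) :
    v ≠ 𝓗.q := by
  rcases hv with hv | ⟨_, i, _, hp⟩
  · exact absurd hv h
  · rintro rfl
    rw [𝓗.hwq, List.prefix_nil] at hp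
    simp at hp

theorem Hub.S_par (𝓗 : Hub ρ) {x : G.Dart} (hx : x.fst ∈ 𝓗.H) {v : V} (hv : v ∈ 𝓗.S x)
    (h : v ≠ x.fst) : (𝓗.par v).snd ∈ 𝓗.S x := by
  have hvq := 𝓗.S_q hv h
  rcases hv with hv | ⟨hv, i, hi, hp⟩
  · exact absurd hv h
  · rw [𝓗.hwv v hv hvq, prefix_single] at hp
    rcases hp with hp | hp
    · left
      have h1 := (List.append_inj' hp rfl).1
      exact (𝓗.w_inj hx (𝓗.hps v hv hvq) h1).symm
    · right
      exact ⟨𝓗.hps v hv hvq, i, hi, hp⟩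

theorem Hub.pow_succ_ix (𝓗 : Hub ρ) {x : G.Dart} (hx : x.fst ∈ 𝓗.H) :
    (ρ.σ ^ (𝓗.ix x + 1)) (𝓗.st x.fst) = ρ.σ x := by
  rw [pow_succ', Perm.mul_apply, 𝓗.ix_spec hx]

/-- index at the root of the sector -/
theorem Hub.ixs (𝓗 : Hub ρ) {x d : G.Dart} (hx : x.fst ∈ 𝓗.H) (hd : d.fst = x.fst)
    (hlt : 𝓗.ix x < 𝓗.ix d) (par : V → G.Dart) :
    ixx ρ x.fst (ρ.σ x) par d = 𝓗.ix d - (𝓗.ix x + 1) := by
  have hdH : d.fst ∈ 𝓗.H := by rw [hd]; exact hx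
  have h1 := 𝓗.pow_succ_ix hx
  have h2 := 𝓗.ix_spec hdH
  have hst : stt ρ x.fst (ρ.σ x) par d.fst = ρ.σ x := by
    unfold stt; rw [if_pos hd]
  have e1 : (ρ.σ ^ (𝓗.ix d - (𝓗.ix x + 1))) (ρ.σ x) = d := by
    rw [← h1, ← Perm.mul_apply, ← pow_add, show 𝓗.ix d - (𝓗.ix x + 1) + (𝓗.ix x + 1) = 𝓗.ix d by
      omega, ← hd]
    exact h2
  unfold ixx
  rw [hst]
  refine le_antisymm (Nat.sInf_le e1) ?_
  have hne : {i : ℕ | (ρ.σ ^ i) (ρ.σ x) = d}.Nonempty := ⟨_, e1⟩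
  have e2 : (ρ.σ ^ (sInf {i : ℕ | (ρ.σ ^ i) (ρ.σ x) = d})) (ρ.σ x) = d := Nat.sInf_mem hne
  generalize sInf {i : ℕ | (ρ.σ ^ i) (ρ.σ x) = d} = j at e2
  rw [← h1, ← Perm.mul_apply, ← pow_add, ← hd] at e2
  have := 𝓗.ix_le e2
  omega

/-- the sector as a hub of its own -/
theorem Hub.sector (𝓗 : Hub ρ) {x : G.Dart} (hx : x.fst ∈ 𝓗.H) :
    ∃ 𝓚 : Hub ρ, 𝓚.H = 𝓗.S x ∧ 𝓚.q = x.fst ∧ 𝓚.r0 = ρ.σ x ∧ 𝓚.par = 𝓗.par ∧
      ∀ d e : G.Dart, d.fst ∈ 𝓗.S x → (d.fst = x.fst → 𝓗.ix x < 𝓗.ix d) →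
        e.fst ∈ 𝓗.S x → (e.fst = x.fst → 𝓗.ix x < 𝓗.ix e) →
        (𝓚.wd d < 𝓚.wd e ↔ 𝓗.wd d < 𝓗.wd e) := by
  obtain ⟨k, hk⟩ : ∃ k, k = 𝓗.ix x + 1 := ⟨_, rfl⟩
  -- words of vertices of the sector
  have hww : ∀ v ∈ 𝓗.S x, v ≠ x.fst → ∃ i t, k ≤ i ∧ 𝓗.w v = 𝓗.w x.fst ++ (i :: t) := by
    intro v hv hvx
    rcases hv with hv | ⟨hv, i, hi, hp⟩
    · exact absurd hv hvx
    · obtain ⟨t, ht⟩ := hp
      refine ⟨i, t, by omega, ?_⟩
      rw [← ht]; simp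
  have hdrop : ∀ l, (𝓗.w x.fst ++ l).drop (𝓗.w x.fst).length = l := fun l => by simp
  have hixx : ∀ v ∈ 𝓗.S x, v ≠ x.fst → ∀ d : G.Dart, d.fst = v →
      ixx ρ x.fst (ρ.σ x) 𝓗.par d = 𝓗.ix d := by
    intro v hv hvx d hd
    unfold Hub.ix ixx stt
    rw [if_neg (by rw [hd]; exact hvx), if_neg (by rw [hd]; exact 𝓗.S_q hv hvx)]
  obtain ⟨𝓚, hK⟩ : ∃ 𝓚 : Hub ρ, 𝓚 = {
      H := 𝓗.S x
      q := x.fst
      r0 := ρ.σ x
      par := 𝓗.par
      w := fun v => shf k ((𝓗.w v).drop (𝓗.w x.fst).length)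
      hq := Or.inl rfl
      hr0 := ρ.hfst x
      hpf := fun v hv hvx => 𝓗.hpf v (𝓗.S_sub hx hv) (𝓗.S_q hv hvx)
      hps := fun v hv hvx => 𝓗.S_par hx hv hvx
      hwq := by
        show shf k ((𝓗.w x.fst).drop (𝓗.w x.fst).length) = []
        rw [List.drop_length]; rfl
      hwv := by
        intro v hv hvx
        have hvq := 𝓗.S_q hv hvx
        have hvH := 𝓗.S_sub hx hv
        have hpS := 𝓗.S_par hx hv hvx
        have h1 := 𝓗.hwv v hvH hvq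
        show shf k ((𝓗.w v).drop _) = shf k ((𝓗.w (𝓗.par v).snd).drop _) ++ _
        obtain ⟨i, t, hi, hw⟩ := hww v hv hvx
        by_cases hpx : (𝓗.par v).snd = x.fst
        · have h2 : 𝓗.w v = 𝓗.w x.fst ++ [𝓗.ix (𝓗.par v).symm] := by
            rw [h1, hpx]; rfl
          rw [h2, hdrop, hpx, List.drop_length]
          have h3 : i :: t = [𝓗.ix (𝓗.par v).symm] := by
            rw [hw] at h2
            exact List.append_cancel_left h2
          have h4 : i = 𝓗.ix (𝓗.par v).symm := (List.cons.inj h3).1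
          rw [𝓗.ixs hx (show (𝓗.par v).symm.fst = x.fst from hpx) (by omega) 𝓗.par, ← hk]
          rfl
        · obtain ⟨i', t', hi', hw'⟩ := hww _ hpS hpx
          have e1 := hixx _ hpS hpx (𝓗.par v).symm rfl
          rw [e1]
          rw [h1, hw', List.append_assoc, hdrop, hdrop, shf_app (by simp)]
          rfl } := ⟨_, rfl⟩
  have eH : 𝓚.H = 𝓗.S x := by rw [hK]
  have ewd : ∀ d : G.Dart, d.fst ∈ 𝓗.S x → (d.fst = x.fst → 𝓗.ix x < 𝓗.ix d) →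
      ∃ i t, k ≤ i ∧ 𝓗.wd d = 𝓗.w x.fst ++ (i :: t) ∧ 𝓚.wd d = shf k (i :: t) := by
    intro d hd hlt
    by_cases hdx : d.fst = x.fst
    · refine ⟨𝓗.ix d, [], by have := hlt hdx; omega, ?_, ?_⟩
      · unfold Hub.wd; rw [hdx]
      · rw [hK]
        show shf k ((𝓗.w d.fst).drop (𝓗.w x.fst).length) ++ [ixx ρ x.fst (ρ.σ x) 𝓗.par d] = _
        rw [hdx, List.drop_length, 𝓗.ixs hx hdx (hlt hdx) 𝓗.par, ← hk]
        rfl
    · obtain ⟨i, t, hi, hw⟩ := hww _ hd hdx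
      refine ⟨i, t ++ [𝓗.ix d], hi, ?_, ?_⟩
      · unfold Hub.wd; rw [hw]; simp
      · rw [hK]
        show shf k ((𝓗.w d.fst).drop (𝓗.w x.fst).length) ++ [ixx ρ x.fst (ρ.σ x) 𝓗.par d] = _
        rw [hw, hdrop, hixx _ hd hdx d rfl]
        rfl
  refine ⟨𝓚, eH, by rw [hK], by rw [hK], by rw [hK], ?_⟩
  intro d e hd hd' he he'
  obtain ⟨i, t, hi, h1, h2⟩ := ewd d hd hd'
  obtain ⟨j, s, hj, h3, h4⟩ := ewd e he he'
  rw [h1, h2, h3, h4, app_lt_app, shf_lt hi hj]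

/-- the sector in terms of positions -/
theorem Hub.S_eq (𝓗 : Hub ρ) {x : G.Dart} (hx : x.fst ∈ 𝓗.H) (hxq : x.fst ≠ 𝓗.q)
    (ht : ¬ 𝓗.Tr x) : Sec 𝓗.ct 𝓗.H x.fst x.snd = 𝓗.S x := by
  have hpx := 𝓗.hpf _ hx hxq
  have hpxH : (𝓗.par x.fst).fst ∈ 𝓗.H := by rw [hpx]; exact hx
  ext v
  constructor
  · rintro (rfl | ⟨hv, h1, h2⟩)
    · exact Or.inl rfl
    · right
      refine ⟨hv, ?_⟩
      rw [𝓗.ct_pos'] at h1
      have hvq : v ≠ 𝓗.q := by
        rintro rfl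
        rw [𝓗.ct_lo_q] at h1
        omega
      rw [𝓗.ct_lo hvq] at h1
      rw [𝓗.ct_hi hvq, 𝓗.ct_hi hxq] at h2
      have hbv : (𝓗.par v).fst ∈ 𝓗.H := by rw [𝓗.hpf v hv hvq]; exact hv
      have h3 : 𝓗.wd x < 𝓗.w v := by rw [← 𝓗.rnk_lt_iff hx]; omega
      have h4 : 𝓗.wd (𝓗.par v) < 𝓗.wd (𝓗.par x.fst) := by rw [← 𝓗.rnk_lt_iff hbv]; omega
      have h5 : 𝓗.w v ≤ 𝓗.wd (𝓗.par v) := by
        unfold Hub.wd
        rw [𝓗.hpf v hv hvq]; exact le_app _ _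
      have h6 : 𝓗.w v < 𝓗.w x.fst ++ [𝓗.ix (𝓗.par x.fst)] := by
        have := lt_of_le_of_lt h5 h4
        unfold Hub.wd at this
        rwa [hpx] at this
      have h7 : 𝓗.w x.fst ++ [𝓗.ix x] < 𝓗.w v := h3
      obtain ⟨m, hm⟩ := sandwich h7 h6
      rw [← hm, app_lt_app] at h7
      cases m with
      | nil => exact absurd h7 (by simp)
      | cons i m =>
        rw [cons_lt'] at h7
        refine ⟨i, ?_, ?_⟩
        · rcases h7 with h7 | ⟨h7, h8⟩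
          · exact h7
          · exfalso
            -- then `x` would be a tree dart
            have hp : 𝓗.wd x <+: 𝓗.wd (𝓗.par v).symm := by
              rw [← 𝓗.hwv' hv hvq, ← hm]
              unfold Hub.wd
              rw [h7]
              exact ⟨m, by simp⟩
            rcases 𝓗.pre hx _ _ (𝓗.hps v hv hvq) le_rfl hp with h | ⟨z, hz, hzq, h⟩
            · exact ht ⟨v, hv, hvq, Or.inr h.symm⟩
            · exact ht ⟨z, hz, hzq, Or.inr h.symm⟩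
        · rw [← hm]
          exact ⟨m, by simp⟩
  · rintro (rfl | ⟨hv, i, hi, hp⟩)
    · exact Or.inl rfl
    · right
      have hvq : v ≠ 𝓗.q := by
        rintro rfl
        rw [𝓗.hwq, List.prefix_nil] at hp
        simp at hp
      have hbv : (𝓗.par v).fst ∈ 𝓗.H := by rw [𝓗.hpf v hv hvq]; exact hv
      refine ⟨hv, ?_, ?_⟩
      · rw [𝓗.ct_pos', 𝓗.ct_lo hvq]
        have h3 : 𝓗.rnk (𝓗.wd x) < 𝓗.rnk (𝓗.w v) := by
          rw [𝓗.rnk_lt_iff hx]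
          obtain ⟨t, ht⟩ := hp
          rw [← ht]
          unfold Hub.wd
          rw [List.append_assoc, app_lt_app, List.singleton_append, cons_lt']
          exact Or.inl hi
        omega
      · rw [𝓗.ct_hi hvq, 𝓗.ct_hi hxq]
        -- the child of `x.fst` towards `v`
        obtain ⟨z, hz, hwz⟩ := 𝓗.anc _ v hv le_rfl _ hp
        have hzq : z ≠ 𝓗.q := by
          rintro rfl
          rw [𝓗.hwq] at hwz
          simp at hwz
        have hz1 := 𝓗.hwv z hz hzq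
        rw [hwz] at hz1
        have hz2 := List.append_inj' hz1 rfl
        have hz3 : x.fst = (𝓗.par z).snd := 𝓗.w_inj hx (𝓗.hps z hz hzq) hz2.1
        have hz4 : i = 𝓗.ix (𝓗.par z).symm := List.singleton_inj.1 hz2.2
        have hz5 : 𝓗.ix (𝓗.par z).symm < 𝓗.ix (𝓗.par x.fst) := by
          refine 𝓗.ix_par_lt hx hxq (show (𝓗.par z).snd = x.fst from hz3.symm) ?_
          intro h
          have h6 := 𝓗.w_len hz hzq
          have h7 := 𝓗.w_len hx hxq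
          have h8 : (𝓗.par x.fst).snd = z := by
            rw [← h]; exact 𝓗.hpf z hz hzq
          rw [h8] at h7
          rw [← hz3] at h6
          omega
        have h3 : 𝓗.rnk (𝓗.wd (𝓗.par v)) < 𝓗.rnk (𝓗.wd (𝓗.par x.fst)) := by
          rw [𝓗.rnk_lt_iff hbv]
          obtain ⟨t, ht⟩ := hp
          unfold Hub.wd
          rw [𝓗.hpf v hv hvq, hpx, ← ht, List.append_assoc, List.append_assoc, app_lt_app,
            List.singleton_append, cons_lt']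
          left
          omega
        omega

end Pool.M1
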