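import Pool.Agent.H42.M1.Word
import Pool.Agent.H56.BD.Defs

set_option autoImplicit false

open Equiv
open Pool.BD

namespace Pool.M1

variable {V : Type} {G : SimpleGraph V} {ρ : Rot G}

/-- rank of a word among the darts at the hub -/
noncomputable def Hub.rnk (𝓗 : Hub ρ) (l : List ℕ) : ℕ :=
  {e : G.Dart | e.fst ∈ 𝓗.H ∧ 𝓗.wd e < l}.ncard

open Classical in
/-- the contour of a hub, with integer positions -/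
noncomputable def Hub.ct (𝓗 : Hub ρ) : Ct V where
  par v := (𝓗.par v).snd
  pos u w := if h : G.Adj u w then 2 * (𝓗.rnk (𝓗.wd ⟨(u, w), h⟩) : ℤ) + 2 else 0
  lo v := if v = 𝓗.q then 0 else 2 * (𝓗.rnk (𝓗.w v) : ℤ) + 1
  hi v := if v = 𝓗.q then 2 * ({e : G.Dart | e.fst ∈ 𝓗.H}.ncard : ℤ) + 3
    else 2 * (𝓗.rnk (𝓗.wd (𝓗.par v)) : ℤ) + 2

theorem Hub.ct_par (𝓗 : Hub ρ) (v : V) : 𝓗.ct.par v = (𝓗.par v).snd := rfl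

theorem Hub.ct_pos (𝓗 : Hub ρ) {u w : V} (h : G.Adj u w) :
    𝓗.ct.pos u w = 2 * (𝓗.rnk (𝓗.wd ⟨(u, w), h⟩) : ℤ) + 2 := dif_pos h

theorem Hub.ct_pos' (𝓗 : Hub ρ) (d : G.Dart) :
    𝓗.ct.pos d.fst d.snd = 2 * (𝓗.rnk (𝓗.wd d) : ℤ) + 2 := 𝓗.ct_pos d.adj

theorem Hub.ct_lo_q (𝓗 : Hub ρ) : 𝓗.ct.lo 𝓗.q = 0 := if_pos rfl

theorem Hub.ct_lo (𝓗 : Hub ρ) {v : V} (h : v ≠ 𝓗.q) :
    𝓗.ct.lo v = 2 * (𝓗.rnk (𝓗.w v) : ℤ) + 1 := if_neg h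

theorem Hub.ct_hi_q (𝓗 : Hub ρ) :
    𝓗.ct.hi 𝓗.q = 2 * ({e : G.Dart | e.fst ∈ 𝓗.H}.ncard : ℤ) + 3 := if_pos rfl

theorem Hub.ct_hi (𝓗 : Hub ρ) {v : V} (h : v ≠ 𝓗.q) :
    𝓗.ct.hi v = 2 * (𝓗.rnk (𝓗.wd (𝓗.par v)) : ℤ) + 2 := if_neg h

variable [Finite V]

theorem fin_dart (G : SimpleGraph V) : Finite G.Dart := by
  have := Fintype.ofFinite V
  classical
  infer_instance

theorem Hub.rnk_mono (𝓗 : Hub ρ) {l m : List ℕ} (h : l ≤ m) : 𝓗.rnk l ≤ 𝓗.rnk m := by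
  have := fin_dart G
  refine Set.ncard_le_ncard ?_ (Set.toFinite _)
  rintro e ⟨h1, h2⟩
  exact ⟨h1, lt_of_lt_of_le h2 h⟩

theorem Hub.rnk_lt (𝓗 : Hub ρ) {l m : List ℕ} {e : G.Dart} (he : e.fst ∈ 𝓗.H) (h1 : l ≤ 𝓗.wd e)
    (h2 : 𝓗.wd e < m) : 𝓗.rnk l < 𝓗.rnk m := by
  have := fin_dart G
  refine Set.ncard_lt_ncard ⟨?_, ?_⟩ (Set.toFinite _)
  · rintro e' ⟨h3, h4⟩
    exact ⟨h3, h4.trans_le (h1.trans h2.le)⟩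
  · intro h
    have := h ⟨he, h2⟩
    exact absurd this.2 (not_lt.2 h1)

theorem Hub.rnk_lt_iff (𝓗 : Hub ρ) {d : G.Dart} {m : List ℕ} (hd : d.fst ∈ 𝓗.H) :
    𝓗.rnk (𝓗.wd d) < 𝓗.rnk m ↔ 𝓗.wd d < m := by
  constructor
  · intro h
    by_contra h'
    exact absurd (𝓗.rnk_mono (not_lt.1 h')) (not_le.2 h)
  · intro h
    exact 𝓗.rnk_lt hd le_rfl h

theorem Hub.rnk_lt_card (𝓗 : Hub ρ) {d : G.Dart} (hd : d.fst ∈ 𝓗.H) :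
    𝓗.rnk (𝓗.wd d) < {e : G.Dart | e.fst ∈ 𝓗.H}.ncard := by
  have := fin_dart G
  refine Set.ncard_lt_ncard ⟨?_, ?_⟩ (Set.toFinite _)
  · rintro e' ⟨h3, h4⟩
    exact h3
  · intro h
    exact lt_irrefl _ (h hd).2

/-- positions compare like words -/
theorem Hub.ct_pos_lt (𝓗 : Hub ρ) {d e : G.Dart} (hd : d.fst ∈ 𝓗.H) :
    𝓗.ct.pos d.fst d.snd < 𝓗.ct.pos e.fst e.snd ↔ 𝓗.wd d < 𝓗.wd e := by
  rw [𝓗.ct_pos', 𝓗.ct_pos', ← 𝓗.rnk_lt_iff hd]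
  omega

theorem Hub.wd_lt_same (𝓗 : Hub ρ) {d e : G.Dart} (h : d.fst = e.fst) :
    𝓗.wd d < 𝓗.wd e ↔ 𝓗.ix d < 𝓗.ix e := by
  unfold Hub.wd
  rw [h, app_lt_app, single_lt]

/-- the parent dart is the last one -/
theorem Hub.ix_par (𝓗 : Hub ρ) {v : V} (hv : v ∈ 𝓗.H) (hvq : v ≠ 𝓗.q) {d : G.Dart}
    (hd : d.fst = v) : 𝓗.ix d ≤ 𝓗.ix (𝓗.par v) := by
  have hpf := 𝓗.hpf v hv hvq
  have hdH : d.fst ∈ 𝓗.H := by rw [hd]; exact hv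
  have hpH : (𝓗.par v).fst ∈ 𝓗.H := by rw [hpf]; exact hv
  have h1 := 𝓗.ix_spec hdH
  have h2 := 𝓗.ix_spec hpH
  rw [hd] at h1
  rw [hpf] at h2
  by_contra hlt
  push Not at hlt
  -- after the parent dart the index restarts
  have h3 : (ρ.σ ^ (𝓗.ix (𝓗.par v) + 1)) (𝓗.st v) = 𝓗.st v := by
    rw [pow_succ', Perm.mul_apply, h2, ← 𝓗.st_ne hvq]
  have h4 : (ρ.σ ^ (𝓗.ix d - (𝓗.ix (𝓗.par v) + 1))) (𝓗.st v) = d := by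
    have e1 : 𝓗.ix d = (𝓗.ix d - (𝓗.ix (𝓗.par v) + 1)) + (𝓗.ix (𝓗.par v) + 1) := by omega
    rw [e1, pow_add, Perm.mul_apply, h3] at h1
    exact h1
  have h5 : 𝓗.ix d ≤ 𝓗.ix d - (𝓗.ix (𝓗.par v) + 1) := 𝓗.ix_le (by rw [hd]; exact h4)
  omega

theorem Hub.ix_par_lt (𝓗 : Hub ρ) {v : V} (hv : v ∈ 𝓗.H) (hvq : v ≠ 𝓗.q) {d : G.Dart}
    (hd : d.fst = v) (hne : d ≠ 𝓗.par v) : 𝓗.ix d < 𝓗.ix (𝓗.par v) := by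
  refine lt_of_le_of_ne (𝓗.ix_par hv hvq hd) ?_
  intro h
  exact hne (𝓗.ix_inj (by rw [hd]; exact hv) (by rw [hd, 𝓗.hpf v hv hvq]) h)

/-- the noncrossing part of `IsCt` -/
def Hub.NcP (𝓗 : Hub ρ) (Q : Set V) (c : Ct V) : Prop :=
  ∀ H' : Set V, H' ⊆ 𝓗.H → 𝓗.q ∈ H' → (∀ v ∈ H', v ≠ 𝓗.q → c.par v ∈ H') →
    ∀ (X Y : Set V), Disjoint X Y → ∀ d d' e e' : V × V,
      Ft G 𝓗.H H' 𝓗.q Q c d → Ft G 𝓗.H H' 𝓗.q Q c d' → Ft G 𝓗.H H' 𝓗.q Q c e →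
      Ft G 𝓗.H H' 𝓗.q Q c e' → Lk G H' X d d' → Lk G H' Y e e' →
      ¬ (c.pos d.1 d.2 < c.pos e.1 e.2 ∧ c.pos e.1 e.2 < c.pos d'.1 d'.2 ∧
        c.pos d'.1 d'.2 < c.pos e'.1 e'.2)

theorem Hub.isCt (𝓗 : Hub ρ) (Q : Set V) (hQ : ∀ w ∈ 𝓗.H, G.Adj 𝓗.q w → w ∈ Q)
    (hnc : 𝓗.NcP Q 𝓗.ct) : IsCt G 𝓗.H 𝓗.q Q 𝓗.ct := by
  have hwle : ∀ {v : V} {d : G.Dart}, d.fst = v → 𝓗.w v ≤ 𝓗.wd d := by
    intro v d h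
    unfold Hub.wd
    rw [h]; exact le_app _ _
  have hdn : ∀ {u w : V}, Dn G 𝓗.H 𝓗.q Q 𝓗.ct u w → u ≠ 𝓗.q → ∀ h : G.Adj u w,
      (⟨(u, w), h⟩ : G.Dart) ≠ 𝓗.par u := by
    intro u w h hu hadj he
    apply h.2.2.2 hu
    rw [𝓗.ct_par, ← he]
  have hchw : ∀ {u w : V}, Ch 𝓗.H 𝓗.q 𝓗.ct u w → ∀ h : G.Adj u w,
      𝓗.w w = 𝓗.wd ⟨(u, w), h⟩ := by
    intro u w hch h
    rw [𝓗.hwv' hch.1 hch.2.1]
    congr 1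
    have h1 := 𝓗.hpf w hch.1 hch.2.1
    have h2 : (𝓗.par w).snd = u := hch.2.2
    refine SimpleGraph.Dart.ext _ _ ?_
    exact Prod.ext h2 h1
  have hbw : ∀ {v : V}, v ∈ 𝓗.H → v ≠ 𝓗.q → (𝓗.par v).fst ∈ 𝓗.H := by
    intro v hv hvq; rw [𝓗.hpf v hv hvq]; exact hv
  have hhi : ∀ {u w w' : V} (h : G.Adj u w) (h' : G.Adj u w'), u ∈ 𝓗.H → Ch 𝓗.H 𝓗.q 𝓗.ct u w →
      𝓗.wd ⟨(u, w), h⟩ < 𝓗.wd ⟨(u, w'), h'⟩ →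
      𝓗.rnk (𝓗.wd (𝓗.par w)) < 𝓗.rnk (𝓗.wd ⟨(u, w'), h'⟩) := by
    intro u w w' h h' hu hch hlt
    rw [𝓗.rnk_lt_iff (hbw hch.1 hch.2.1)]
    have e1 : 𝓗.wd (𝓗.par w) = 𝓗.wd ⟨(u, w), h⟩ ++ [𝓗.ix (𝓗.par w)] := by
      rw [← hchw hch h]
      unfold Hub.wd
      rw [𝓗.hpf w hch.1 hch.2.1]
    rw [e1]
    refine app_lt_of_lt' hlt ?_ _
    intro hp
    have hl : (𝓗.wd ⟨(u, w), h⟩).length = (𝓗.wd ⟨(u, w'), h'⟩).length := by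
      unfold Hub.wd; simp
    have := hp.eq_of_length hl
    rw [this] at hlt
    exact lt_irrefl _ hlt
  refine ⟨𝓗.hq, ?_, hQ, ?_, ?_, ?_, ?_, ?_, hnc⟩
  · intro v hv hvq
    refine ⟨𝓗.hps v hv hvq, ?_⟩
    have h1 := 𝓗.hpf v hv hvq
    have h2 := (𝓗.par v).adj.symm
    rw [h1] at h2
    exact h2
  · intro v hv
    by_cases hvq : v = 𝓗.q
    · rw [hvq, 𝓗.ct_lo_q, 𝓗.ct_hi_q]; omega
    · rw [𝓗.ct_lo hvq, 𝓗.ct_hi hvq]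
      have := 𝓗.rnk_mono (hwle (𝓗.hpf v hv hvq))
      omega
  · intro u w h
    have hadj := h.2.1
    have huH : (⟨(u, w), hadj⟩ : G.Dart).fst ∈ 𝓗.H := h.1
    rw [𝓗.ct_pos hadj]
    by_cases huq : u = 𝓗.q
    · have := 𝓗.rnk_lt_card huH
      have e1 : 𝓗.ct.lo u = 0 := by rw [huq]; exact 𝓗.ct_lo_q
      have e2 : 𝓗.ct.hi u = 2 * ({e : G.Dart | e.fst ∈ 𝓗.H}.ncard : ℤ) + 3 := by
        rw [huq]; exact 𝓗.ct_hi_q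
      rw [e1, e2]
      omega
    · rw [𝓗.ct_lo huq, 𝓗.ct_hi huq]
      have h1 : 𝓗.rnk (𝓗.w u) ≤ 𝓗.rnk (𝓗.wd ⟨(u, w), hadj⟩) := 𝓗.rnk_mono (hwle rfl)
      have h2 : 𝓗.rnk (𝓗.wd ⟨(u, w), hadj⟩) < 𝓗.rnk (𝓗.wd (𝓗.par u)) := by
        rw [𝓗.rnk_lt_iff huH, 𝓗.wd_lt_same (by rw [𝓗.hpf u h.1 huq])]
        exact 𝓗.ix_par_lt h.1 huq rfl (hdn h huq hadj)
      omega
  · intro w hw hwq
    rw [𝓗.ct_par]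
    have hps := 𝓗.hps w hw hwq
    have hpf := 𝓗.hpf w hw hwq
    have hadj : G.Adj (𝓗.par w).snd w := by
      have := (𝓗.par w).adj.symm
      rw [hpf] at this
      exact this
    have hch : Ch 𝓗.H 𝓗.q 𝓗.ct (𝓗.par w).snd w := ⟨hw, hwq, rfl⟩
    have e1 := hchw hch hadj
    rw [𝓗.ct_lo hwq, 𝓗.ct_hi hwq, 𝓗.ct_pos hadj, ← e1]
    have h1 : 𝓗.rnk (𝓗.w w) ≤ 𝓗.rnk (𝓗.wd (𝓗.par w)) := 𝓗.rnk_mono (hwle hpf)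
    have hbH := hbw hw hwq
    refine ⟨?_, by omega, by omega, ?_⟩
    · by_cases hpq : (𝓗.par w).snd = 𝓗.q
      · rw [hpq, 𝓗.ct_lo_q]; omega
      · rw [𝓗.ct_lo hpq]
        have h3 : 𝓗.rnk (𝓗.w (𝓗.par w).snd) < 𝓗.rnk (𝓗.w w) := by
          rw [𝓗.hwv' hps hpq]
          rw [𝓗.rnk_lt_iff (𝓗.hps _ hps hpq), ← 𝓗.hwv' hps hpq, 𝓗.hwv w hw hwq]
          exact lt_app _ (by simp)
        omega
    · by_cases hpq : (𝓗.par w).snd = 𝓗.q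
      · rw [hpq, 𝓗.ct_hi_q]
        have := 𝓗.rnk_lt_card hbH
        omega
      · rw [𝓗.ct_hi hpq]
        have hadj2 : G.Adj (𝓗.par w).snd (𝓗.par (𝓗.par w).snd).snd := by
          have := (𝓗.par (𝓗.par w).snd).adj
          rw [𝓗.hpf _ hps hpq] at this
          exact this
        have e2 : (⟨((𝓗.par w).snd, (𝓗.par (𝓗.par w).snd).snd), hadj2⟩ : G.Dart)
            = 𝓗.par (𝓗.par w).snd := by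
          refine SimpleGraph.Dart.ext _ _ ?_
          exact Prod.ext (𝓗.hpf _ hps hpq).symm rfl
        have h3 := hhi hadj hadj2 hps hch (by
          rw [e2, 𝓗.wd_lt_same (by rw [𝓗.hpf _ hps hpq])]
          refine 𝓗.ix_par_lt hps hpq rfl ?_
          intro h
          have h5 : w = (𝓗.par (𝓗.par w).snd).snd := by rw [← h]
          have h6 := 𝓗.w_len hw hwq
          have h7 := 𝓗.w_len hps hpq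
          rw [← h5] at h7
          omega)
        rw [e2] at h3
        omega
  · intro u w w' h h' he
    have h1 := 𝓗.ct_pos h.2.1
    have h2 := 𝓗.ct_pos h'.2.1
    have h3 : 𝓗.rnk (𝓗.wd ⟨(u, w), h.2.1⟩) = 𝓗.rnk (𝓗.wd ⟨(u, w'), h'.2.1⟩) := by omega
    have h4 : (⟨(u, w), h.2.1⟩ : G.Dart) = ⟨(u, w'), h'.2.1⟩ := by
      have hu : (⟨(u, w), h.2.1⟩ : G.Dart).fst ∈ 𝓗.H := h.1
      have hu' : (⟨(u, w'), h'.2.1⟩ : G.Dart).fst ∈ 𝓗.H := h.1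
      rcases lt_trichotomy (𝓗.wd ⟨(u, w), h.2.1⟩) (𝓗.wd ⟨(u, w'), h'.2.1⟩) with h5 | h5 | h5
      · have := (𝓗.rnk_lt_iff hu).2 h5; omega
      · exact 𝓗.wd_inj hu hu' h5
      · have := (𝓗.rnk_lt_iff hu').2 h5; omega
    exact congrArg (fun d : G.Dart => d.snd) h4
  · intro u w w' h h' hlt
    have hu : (⟨(u, w), h.2.1⟩ : G.Dart).fst ∈ 𝓗.H := h.1
    have h1 := 𝓗.ct_pos h.2.1
    have h2 := 𝓗.ct_pos h'.2.1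
    have h3 : 𝓗.wd ⟨(u, w), h.2.1⟩ < 𝓗.wd ⟨(u, w'), h'.2.1⟩ := by
      rw [← 𝓗.rnk_lt_iff hu]; omega
    have h3' := (𝓗.rnk_lt_iff hu).2 h3
    refine ⟨?_, ?_, ?_⟩
    · intro hch
      have := hhi h.2.1 h'.2.1 h.1 hch h3
      rw [𝓗.ct_hi hch.2.1, h2]
      omega
    · intro hch
      rw [𝓗.ct_lo hch.2.1, hchw hch h'.2.1, h1]
      omega
    · intro hch hch'
      have := hhi h.2.1 h'.2.1 h.1 hch h3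
      rw [𝓗.ct_lo hch'.2.1, 𝓗.ct_hi hch.2.1, hchw hch' h'.2.1]
      omega

end Pool.M1
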