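import Pool.Agent.H42.M1.Hub

set_option autoImplicit false

open Equiv

namespace Pool.M1

namespace Hub

variable {V : Type} {G : SimpleGraph V} {ρ : Rot G}

/-- the first dart at a vertex of the hub -/
noncomputable def st (𝓗 : Hub ρ) (v : V) : G.Dart := stt ρ 𝓗.q 𝓗.r0 𝓗.par v

theorem st_q (𝓗 : Hub ρ) : 𝓗.st 𝓗.q = 𝓗.r0 := by
  unfold st stt; rw [if_pos rfl]

theorem st_ne (𝓗 : Hub ρ) {v : V} (h : v ≠ 𝓗.q) : 𝓗.st v = ρ.σ (𝓗.par v) := by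
  unfold st stt; rw [if_neg h]

theorem st_fst (𝓗 : Hub ρ) {v : V} (hv : v ∈ 𝓗.H) : (𝓗.st v).fst = v := by
  by_cases h : v = 𝓗.q
  · rw [h, st_q, 𝓗.hr0]
  · rw [𝓗.st_ne h, ρ.hfst, 𝓗.hpf v hv h]

theorem hwv' (𝓗 : Hub ρ) {v : V} (hv : v ∈ 𝓗.H) (h : v ≠ 𝓗.q) :
    𝓗.w v = 𝓗.wd (𝓗.par v).symm := by
  unfold wd
  rw [𝓗.hwv v hv h]
  rfl

theorem w_ne (𝓗 : Hub ρ) {v : V} (hv : v ∈ 𝓗.H) (h : v ≠ 𝓗.q) : 𝓗.w v ≠ [] := by
  rw [𝓗.hwv v hv h]; simp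

theorem wd_ne (𝓗 : Hub ρ) (d : G.Dart) : 𝓗.wd d ≠ [] := by
  unfold wd; simp

/-- the words of a vertex are shorter than the words of its children -/
theorem w_len (𝓗 : Hub ρ) {v : V} (hv : v ∈ 𝓗.H) (h : v ≠ 𝓗.q) :
    (𝓗.w v).length = (𝓗.w (𝓗.par v).snd).length + 1 := by
  rw [𝓗.hwv v hv h]; simp

variable [Finite V]

theorem ix_spec (𝓗 : Hub ρ) {d : G.Dart} (hd : d.fst ∈ 𝓗.H) :
    (ρ.σ ^ (𝓗.ix d)) (𝓗.st d.fst) = d := by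
  have := Fintype.ofFinite V
  classical
  have h1 : ρ.σ.SameCycle (𝓗.st d.fst) d := ρ.hcyc _ _ (𝓗.st_fst hd)
  obtain ⟨n, hn⟩ := h1.exists_nat_pow_eq
  have h2 : {i : ℕ | (ρ.σ ^ i) (stt ρ 𝓗.q 𝓗.r0 𝓗.par d.fst) = d}.Nonempty := ⟨n, hn⟩
  exact Nat.sInf_mem h2

omit [Finite V] in
theorem ix_le (𝓗 : Hub ρ) {d : G.Dart} {i : ℕ} (h : (ρ.σ ^ i) (𝓗.st d.fst) = d) : 𝓗.ix d ≤ i :=
  Nat.sInf_le h

theorem ix_inj (𝓗 : Hub ρ) {d e : G.Dart} (hd : d.fst ∈ 𝓗.H) (h : d.fst = e.fst)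
    (h' : 𝓗.ix d = 𝓗.ix e) : d = e := by
  rw [← 𝓗.ix_spec hd, ← 𝓗.ix_spec (h ▸ hd : e.fst ∈ 𝓗.H), h, h']

theorem ix_succ (𝓗 : Hub ρ) {d : G.Dart} (hd : d.fst ∈ 𝓗.H) :
    ρ.σ d = 𝓗.st d.fst ∨ 𝓗.ix (ρ.σ d) = 𝓗.ix d + 1 := by
  have h1 := 𝓗.ix_spec hd
  have hd' : (ρ.σ d).fst ∈ 𝓗.H := by rw [ρ.hfst]; exact hd
  have h2 := 𝓗.ix_spec hd'
  rw [ρ.hfst] at h2
  have h3 : 𝓗.ix (ρ.σ d) ≤ 𝓗.ix d + 1 := by
    refine 𝓗.ix_le ?_
    rw [ρ.hfst, pow_succ', Perm.mul_apply, h1]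
  rcases Nat.eq_zero_or_pos (𝓗.ix (ρ.σ d)) with h | h
  · left
    rw [h] at h2
    simpa using h2.symm
  · right
    refine le_antisymm h3 ?_
    obtain ⟨j, hj⟩ := Nat.exists_eq_succ_of_ne_zero h.ne'
    rw [hj, Nat.succ_eq_add_one, pow_succ', Perm.mul_apply] at h2
    have h4 := 𝓗.ix_le (ρ.σ.injective h2)
    omega

/-- darts at the hub are determined by their words, and so are the vertices -/
theorem wd_w_inj (𝓗 : Hub ρ) : ∀ n : ℕ,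
    (∀ u ∈ 𝓗.H, ∀ v ∈ 𝓗.H, (𝓗.w u).length ≤ n → 𝓗.w u = 𝓗.w v → u = v) := by
  intro n
  induction n with
  | zero =>
    intro u hu v hv hn h
    have h0 : 𝓗.w u = [] := List.length_eq_zero_iff.1 (by omega)
    have hu' : u = 𝓗.q := by
      by_contra hne; exact 𝓗.w_ne hu hne h0
    have hv' : v = 𝓗.q := by
      by_contra hne; exact 𝓗.w_ne hv hne (h ▸ h0)
    rw [hu', hv']
  | succ n ih =>
    intro u hu v hv hn h
    by_cases hu' : u = 𝓗.q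
    · have h0 : 𝓗.w u = [] := by rw [hu']; exact 𝓗.hwq
      have hv' : v = 𝓗.q := by
        by_contra hne; exact 𝓗.w_ne hv hne (h ▸ h0)
      rw [hu', hv']
    · have hv' : v ≠ 𝓗.q := by
        rintro rfl
        rw [𝓗.hwq] at h
        exact 𝓗.w_ne hu hu' h
      have hl := 𝓗.w_len hu hu'
      have h1 := 𝓗.hwv u hu hu'
      have h2 := 𝓗.hwv v hv hv'
      rw [h1, h2] at h
      have h3 : 𝓗.w (𝓗.par u).snd = 𝓗.w (𝓗.par v).snd ∧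
          𝓗.ix (𝓗.par u).symm = 𝓗.ix (𝓗.par v).symm := by
        have := List.append_inj' h rfl
        exact ⟨this.1, List.singleton_inj.1 this.2⟩
      have h4 := ih _ (𝓗.hps u hu hu') _ (𝓗.hps v hv hv') (by omega) h3.1
      have h5 : (𝓗.par u).symm = (𝓗.par v).symm :=
        𝓗.ix_inj (𝓗.hps u hu hu') h4 h3.2
      have h6 : 𝓗.par u = 𝓗.par v := by
        have := congrArg SimpleGraph.Dart.symm h5
        simpa using this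
      rw [← 𝓗.hpf u hu hu', ← 𝓗.hpf v hv hv', h6]

theorem w_inj (𝓗 : Hub ρ) {u v : V} (hu : u ∈ 𝓗.H) (hv : v ∈ 𝓗.H) (h : 𝓗.w u = 𝓗.w v) : u = v :=
  𝓗.wd_w_inj _ u hu v hv le_rfl h

theorem wd_inj (𝓗 : Hub ρ) {d e : G.Dart} (hd : d.fst ∈ 𝓗.H) (he : e.fst ∈ 𝓗.H)
    (h : 𝓗.wd d = 𝓗.wd e) : d = e := by
  have h1 := List.append_inj' h rfl
  exact 𝓗.ix_inj hd (𝓗.w_inj hd he h1.1) (by simpa using h1.2)

/-- only tree darts have extensions -/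
theorem pre (𝓗 : Hub ρ) {x : G.Dart} (hx : x.fst ∈ 𝓗.H) : ∀ n : ℕ, ∀ d : G.Dart, d.fst ∈ 𝓗.H →
    (𝓗.wd d).length ≤ n → 𝓗.wd x <+: 𝓗.wd d →
    d = x ∨ ∃ v ∈ 𝓗.H, v ≠ 𝓗.q ∧ (𝓗.par v).symm = x := by
  intro n
  induction n with
  | zero =>
    intro d hd hn _
    exact absurd (List.length_eq_zero_iff.1 (Nat.le_zero.1 hn)) (𝓗.wd_ne d)
  | succ n ih =>
    intro d hd hn hp
    unfold wd at hp
    rw [prefix_single] at hp
    rcases hp with hp | hp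
    · left
      exact (𝓗.wd_inj hx hd hp).symm
    · have hdq : d.fst ≠ 𝓗.q := by
        intro h
        rw [h, 𝓗.hwq] at hp
        exact 𝓗.wd_ne x (List.prefix_nil.1 hp)
      rw [𝓗.hwv' hd hdq] at hp
      have h1 : (𝓗.par d.fst).symm.fst ∈ 𝓗.H := 𝓗.hps _ hd hdq
      have h2 : (𝓗.wd (𝓗.par d.fst).symm).length ≤ n := by
        rw [← 𝓗.hwv' hd hdq]
        have : (𝓗.wd d).length = (𝓗.w d.fst).length + 1 := by
          unfold wd; simp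
        omega
      rcases ih _ h1 h2 hp with h | h
      · right
        exact ⟨d.fst, hd, hdq, h⟩
      · exact Or.inr h

/-- a dart leaving the hub has no extension among the darts at the hub -/
theorem pre_out (𝓗 : Hub ρ) {x d : G.Dart} (hx : x.fst ∈ 𝓗.H) (hd : d.fst ∈ 𝓗.H)
    (hx' : x.snd ∉ 𝓗.H) (h : 𝓗.wd x <+: 𝓗.wd d) : d = x := by
  rcases 𝓗.pre hx _ d hd le_rfl h with h | ⟨v, hv, hvq, rfl⟩
  · exact h
  · exact absurd (show (𝓗.par v).symm.snd ∈ 𝓗.H by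
      show (𝓗.par v).fst ∈ 𝓗.H
      rw [𝓗.hpf v hv hvq]; exact hv) hx'

omit [Finite V] in
/-- words of old darts do not change in an extension -/
theorem Ext.stt {𝓗 𝓗' : Hub ρ} (h : Ext 𝓗 𝓗') {v : V} (hv : v ∈ 𝓗.H) : 𝓗'.st v = 𝓗.st v := by
  by_cases hq : v = 𝓗.q
  · have hq' : v = 𝓗'.q := by rw [h.q]; exact hq
    conv_lhs => rw [hq', st_q, h.r0]
    rw [hq, st_q]
  · rw [𝓗.st_ne hq, 𝓗'.st_ne (by rw [h.q]; exact hq), h.par v hv]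

omit [Finite V] in
theorem Ext.ix {𝓗 𝓗' : Hub ρ} (h : Ext 𝓗 𝓗') {d : G.Dart} (hd : d.fst ∈ 𝓗.H) :
    𝓗'.ix d = 𝓗.ix d := by
  have := h.stt hd
  unfold st at this
  unfold Hub.ix ixx
  rw [this]

omit [Finite V] in
theorem Ext.wd {𝓗 𝓗' : Hub ρ} (h : Ext 𝓗 𝓗') {d : G.Dart} (hd : d.fst ∈ 𝓗.H) :
    𝓗'.wd d = 𝓗.wd d := by
  unfold Hub.wd
  rw [h.ix hd, h.w _ hd]

omit [Finite V] in
theorem Ext.refl (𝓗 : Hub ρ) : Ext 𝓗 𝓗 := ⟨rfl, rfl, le_rfl, fun _ _ => rfl, fun _ _ => rfl⟩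

omit [Finite V] in
theorem Ext.trans {𝓗 𝓗' 𝓗'' : Hub ρ} (h : Ext 𝓗 𝓗') (h' : Ext 𝓗' 𝓗'') : Ext 𝓗 𝓗'' :=
  ⟨h'.q.trans h.q, h'.r0.trans h.r0, h.sub.trans h'.sub,
    fun v hv => (h'.par v (h.sub hv)).trans (h.par v hv),
    fun v hv => (h'.w v (h.sub hv)).trans (h.w v hv)⟩

/-- extension by one vertex -/
theorem ext1 (𝓗 : Hub ρ) (a : G.Dart) (ha : a.fst ∈ 𝓗.H) (ha' : a.snd ∉ 𝓗.H) :
    ∃ 𝓗' : Hub ρ, Ext 𝓗 𝓗' ∧ 𝓗'.H = insert a.snd 𝓗.H ∧ 𝓗'.par a.snd = a.symm ∧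
      𝓗'.w a.snd = 𝓗.wd a := by
  classical
  have hne : ∀ v ∈ 𝓗.H, v ≠ a.snd := fun v hv h => ha' (h ▸ hv)
  have hst : ∀ v ∈ 𝓗.H, stt ρ 𝓗.q 𝓗.r0 (Function.update 𝓗.par a.snd a.symm) v = 𝓗.st v := by
    intro v hv
    unfold st stt
    rw [Function.update_of_ne (hne v hv)]
  have hix : ∀ d : G.Dart, d.fst ∈ 𝓗.H →
      ixx ρ 𝓗.q 𝓗.r0 (Function.update 𝓗.par a.snd a.symm) d = 𝓗.ix d := by
    intro d hd
    unfold ixx Hub.ix ixx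
    rw [hst _ hd]
    rfl
  refine ⟨{
    H := insert a.snd 𝓗.H
    q := 𝓗.q
    r0 := 𝓗.r0
    par := Function.update 𝓗.par a.snd a.symm
    w := Function.update 𝓗.w a.snd (𝓗.wd a)
    hq := Or.inr 𝓗.hq
    hr0 := 𝓗.hr0
    hpf := ?_
    hps := ?_
    hwq := ?_
    hwv := ?_ }, ⟨rfl, rfl, fun v hv => Or.inr hv, ?_, ?_⟩, rfl, ?_, ?_⟩
  · rintro v (rfl | hv) hq
    · rw [Function.update_self]; rfl
    · rw [Function.update_of_ne (hne v hv)]; exact 𝓗.hpf v hv hq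
  · rintro v (rfl | hv) hq
    · rw [Function.update_self]; exact Or.inr ha
    · rw [Function.update_of_ne (hne v hv)]; exact Or.inr (𝓗.hps v hv hq)
  · rw [Function.update_of_ne (hne _ 𝓗.hq)]; exact 𝓗.hwq
  · rintro v (rfl | hv) hq
    · rw [Function.update_self, Function.update_self]
      have h1 : a.symm.snd ∈ 𝓗.H := ha
      rw [Function.update_of_ne (hne _ h1)]
      unfold Hub.wd
      congr 2
      exact (hix a ha).symm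
    · rw [Function.update_of_ne (hne v hv), Function.update_of_ne (hne v hv)]
      have h1 := 𝓗.hps v hv hq
      rw [Function.update_of_ne (hne _ h1), 𝓗.hwv v hv hq]
      congr 2
      exact (hix (𝓗.par v).symm h1).symm
  · intro v hv; exact Function.update_of_ne (hne v hv) _ _
  · intro v hv; exact Function.update_of_ne (hne v hv) _ _
  · show Function.update 𝓗.par a.snd a.symm a.snd = a.symm
    exact Function.update_self _ _ _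
  · show Function.update 𝓗.w a.snd (𝓗.wd a) a.snd = 𝓗.wd a
    exact Function.update_self _ _ _

end Hub

end Pool.M1
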